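import Mathlib

/-!
# Permutational wreath products and actions of type (A)
-/

set_option autoImplicit false

namespace Pool.Agent.X265.Wr

open Classical

/-- the stabilizer of a point -/
def stb {G Z : Type} [Group G] (r : G →* Equiv.Perm Z) (z : Z) : Subgroup G :=
  (MulAction.stabilizer (Equiv.Perm Z) z).comap r

theorem mem_stb {G Z : Type} [Group G] (r : G →* Equiv.Perm Z) (z : Z) (g : G) :
    g ∈ stb r z ↔ r g z = z := Iff.rfl

/-- faithful actions of type (A): finitely many orbits on pairs, finitely generated stabilizers -/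
structure TA {G Z : Type} [Group G] (r : G →* Equiv.Perm Z) : Prop where
  inj : Function.Injective r
  orb : ∃ F : Set Z, F.Finite ∧ ∀ z w : Z, ∃ z0 ∈ F, ∃ w0 ∈ F, ∃ g : G, r g z0 = z ∧ r g w0 = w
  stab : ∀ z : Z, (stb r z).FG

section abs

variable {A G X1 X2 : Type} [Group A] [Group G] (r1 : A →* Equiv.Perm X1)
  (r2 : G →* Equiv.Perm X2) (y0 : X2)

/-- the orbit -/
abbrev Orb : Type := {y : X2 // ∃ g, r2 g y0 = y}

/-- the action on the orbit -/
def rO : G →* Equiv.Perm (Orb r2 y0) where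
  toFun g :=
    { toFun := fun y => ⟨r2 g y.1, by
        obtain ⟨h, hh⟩ := y.2
        exact ⟨g * h, by rw [map_mul, Equiv.Perm.mul_apply, hh]⟩⟩
      invFun := fun y => ⟨(r2 g).symm y.1, by
        obtain ⟨h, hh⟩ := y.2
        exact ⟨g⁻¹ * h, by rw [map_mul, Equiv.Perm.mul_apply, hh, map_inv]; rfl⟩⟩
      left_inv := fun y => Subtype.ext ((r2 g).symm_apply_apply _)
      right_inv := fun y => Subtype.ext ((r2 g).apply_symm_apply _) }
  map_one' := by
    apply Equiv.ext
    intro y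
    apply Subtype.ext
    show r2 1 y.1 = y.1
    rw [map_one]
    rfl
  map_mul' g h := by
    apply Equiv.ext
    intro y
    apply Subtype.ext
    show r2 (g * h) y.1 = r2 g (r2 h y.1)
    rw [map_mul]
    rfl

theorem rO_val (g : G) (y : Orb r2 y0) : (rO r2 y0 g y).1 = r2 g y.1 := rfl

/-- the base point of the orbit -/
def bp : Orb r2 y0 := ⟨y0, 1, by rw [map_one]; rfl⟩

/-- the set on which the wreath product acts -/
abbrev ZZ (X1 : Type) : Type := (X1 × Orb r2 y0) ⊕ X2

/-- the action of the base group -/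
def bA : (Orb r2 y0 → A) →* Equiv.Perm (ZZ r2 y0 X1) where
  toFun f :=
    { toFun := Sum.map (fun p => (r1 (f p.2) p.1, p.2)) id
      invFun := Sum.map (fun p => ((r1 (f p.2)).symm p.1, p.2)) id
      left_inv := by
        rintro (p | z)
        · show Sum.inl ((r1 (f p.2)).symm (r1 (f p.2) p.1), p.2) = Sum.inl p
          rw [Equiv.symm_apply_apply]
        · rfl
      right_inv := by
        rintro (p | z)
        · show Sum.inl (r1 (f p.2) ((r1 (f p.2)).symm p.1), p.2) = Sum.inl p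
          rw [Equiv.apply_symm_apply]
        · rfl }
  map_one' := by
    apply Equiv.ext
    rintro (p | z)
    · show Sum.inl (r1 1 p.1, p.2) = Sum.inl p
      rw [map_one]
      rfl
    · rfl
  map_mul' f h := by
    apply Equiv.ext
    rintro (p | z)
    · show Sum.inl (r1 (f p.2 * h p.2) p.1, p.2) = Sum.inl (r1 (f p.2) (r1 (h p.2) p.1), p.2)
      rw [map_mul]
      rfl
    · rfl

theorem bA_inl (f : Orb r2 y0 → A) (x : X1) (y : Orb r2 y0) :
    bA r1 r2 y0 f (Sum.inl (x, y)) = Sum.inl (r1 (f y) x, y) := rfl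

theorem bA_inr (f : Orb r2 y0 → A) (z : X2) :
    bA r1 r2 y0 f (Sum.inr z) = Sum.inr z := rfl

/-- the action of the top group -/
def gA (X1 : Type) : G →* Equiv.Perm (ZZ r2 y0 X1) where
  toFun g :=
    { toFun := Sum.map (fun p => (p.1, rO r2 y0 g p.2)) (r2 g)
      invFun := Sum.map (fun p => (p.1, (rO r2 y0 g).symm p.2)) (r2 g).symm
      left_inv := by
        rintro (p | z)
        · show Sum.inl (p.1, (rO r2 y0 g).symm (rO r2 y0 g p.2)) = Sum.inl p
          rw [Equiv.symm_apply_apply]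
        · show Sum.inr ((r2 g).symm (r2 g z)) = Sum.inr z
          rw [Equiv.symm_apply_apply]
      right_inv := by
        rintro (p | z)
        · show Sum.inl (p.1, rO r2 y0 g ((rO r2 y0 g).symm p.2)) = Sum.inl p
          rw [Equiv.apply_symm_apply]
        · show Sum.inr (r2 g ((r2 g).symm z)) = Sum.inr z
          rw [Equiv.apply_symm_apply] }
  map_one' := by
    apply Equiv.ext
    rintro (p | z)
    · show Sum.inl (p.1, rO r2 y0 1 p.2) = Sum.inl p
      rw [map_one]
      rfl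
    · show Sum.inr (r2 1 z) = Sum.inr z
      rw [map_one]
      rfl
  map_mul' g h := by
    apply Equiv.ext
    rintro (p | z)
    · show Sum.inl (p.1, rO r2 y0 (g * h) p.2) = Sum.inl (p.1, rO r2 y0 g (rO r2 y0 h p.2))
      rw [map_mul]
      rfl
    · show Sum.inr (r2 (g * h) z) = Sum.inr (r2 g (r2 h z))
      rw [map_mul]
      rfl

theorem gA_inl (g : G) (x : X1) (y : Orb r2 y0) :
    gA r2 y0 X1 g (Sum.inl (x, y)) = Sum.inl (x, rO r2 y0 g y) := rfl

theorem gA_inr (g : G) (z : X2) :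
    gA r2 y0 X1 g (Sum.inr z) = Sum.inr (r2 g z) := rfl

theorem gb (g : G) (f : Orb r2 y0 → A) :
    gA r2 y0 X1 g * bA r1 r2 y0 f * (gA r2 y0 X1 g)⁻¹ =
      bA r1 r2 y0 (fun y => f ((rO r2 y0 g).symm y)) := by
  rw [mul_inv_eq_iff_eq_mul]
  apply Equiv.ext
  rintro (⟨x, y⟩ | z)
  · show gA r2 y0 X1 g (bA r1 r2 y0 f (Sum.inl (x, y))) =
      bA r1 r2 y0 (fun y => f ((rO r2 y0 g).symm y)) (gA r2 y0 X1 g (Sum.inl (x, y)))
    rw [bA_inl, gA_inl, gA_inl, bA_inl, Equiv.symm_apply_apply]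
  · rfl

theorem gb_single (g : G) (y : Orb r2 y0) (a : A) :
    gA r2 y0 X1 g * bA r1 r2 y0 (Pi.mulSingle y a) * (gA r2 y0 X1 g)⁻¹ =
      bA r1 r2 y0 (Pi.mulSingle (rO r2 y0 g y) a) := by
  rw [gb]
  congr 1
  funext z
  by_cases h : z = rO r2 y0 g y
  · subst h
    rw [Equiv.symm_apply_apply, Pi.mulSingle_eq_same, Pi.mulSingle_eq_same]
  · rw [Pi.mulSingle_eq_of_ne h, Pi.mulSingle_eq_of_ne]
    intro h2
    apply h
    rw [← h2, Equiv.apply_symm_apply]

/-- an element with `g y0 = y` -/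
noncomputable def sec (y : Orb r2 y0) : G := y.2.choose

theorem sec_spec (y : Orb r2 y0) : r2 (sec r2 y0 y) y0 = y.1 := y.2.choose_spec

/-- the data: homomorphisms from `A` and `G` to a group `P` which acts on `ZZ` -/
structure Dat {P : Type} [Group P] (j : A →* P) (i : G →* P)
    (Ψ : P →* Equiv.Perm (ZZ r2 y0 X1)) : Prop where
  gen : j.range ⊔ i.range = ⊤
  c1 : ∀ a : A, ∀ h : G, r2 h y0 = y0 → Commute (j a) (i h)
  c2 : ∀ a a' : A, ∀ g : G, r2 g y0 ≠ y0 → Commute (j a) (i g * j a' * (i g)⁻¹)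
  pj : ∀ a, Ψ (j a) = bA r1 r2 y0 (Pi.mulSingle (bp r2 y0) a)
  pi : ∀ g, Ψ (i g) = gA r2 y0 X1 g

variable {r1 r2 y0} {P : Type} [Group P] {j : A →* P} {i : G →* P}
  {Ψ : P →* Equiv.Perm (ZZ r2 y0 X1)}

/-- the copies of `A` -/
noncomputable def al (j : A →* P) (i : G →* P) (y : Orb r2 y0) : A →* P :=
  (MulAut.conj (i (sec r2 y0 y))).toMonoidHom.comp j

theorem al_apply (y : Orb r2 y0) (a : A) :
    al j i y a = i (sec r2 y0 y) * j a * (i (sec r2 y0 y))⁻¹ := rfl

theorem Dat.al_eq (D : Dat r1 r2 y0 j i Ψ) (g : G) (y : Orb r2 y0) (h : r2 g y0 = y.1) (a : A) :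
    i g * j a * (i g)⁻¹ = al j i y a := by
  have h1 : r2 ((sec r2 y0 y)⁻¹ * g) y0 = y0 := by
    rw [map_mul, Equiv.Perm.mul_apply, h, ← sec_spec, map_inv]
    exact (r2 (sec r2 y0 y)).symm_apply_apply y0
  have h2 := D.c1 a _ h1
  rw [al_apply]
  have h3 : i g = i (sec r2 y0 y) * i ((sec r2 y0 y)⁻¹ * g) := by
    rw [← map_mul, mul_inv_cancel_left]
  rw [h3]
  generalize i ((sec r2 y0 y)⁻¹ * g) = k at h2 ⊢
  have h4 : k * j a = j a * k := h2.symm
  calc i (sec r2 y0 y) * k * j a * (i (sec r2 y0 y) * k)⁻¹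
      = i (sec r2 y0 y) * (k * j a) * k⁻¹ * (i (sec r2 y0 y))⁻¹ := by group
    _ = i (sec r2 y0 y) * j a * (i (sec r2 y0 y))⁻¹ := by rw [h4]; group

theorem Dat.al_bp (D : Dat r1 r2 y0 j i Ψ) (a : A) : al j i (bp r2 y0) a = j a := by
  rw [← D.al_eq 1 (bp r2 y0) (by rw [map_one]; rfl) a, map_one]
  group

theorem Dat.al_conj (D : Dat r1 r2 y0 j i Ψ) (g : G) (y : Orb r2 y0) (a : A) :
    i g * al j i y a * (i g)⁻¹ = al j i (rO r2 y0 g y) a := by
  rw [← D.al_eq (g * sec r2 y0 y) (rO r2 y0 g y) (by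
    rw [map_mul, Equiv.Perm.mul_apply, sec_spec, rO_val]) a, al_apply, map_mul]
  group

theorem Dat.al_comm (D : Dat r1 r2 y0 j i Ψ) {y y' : Orb r2 y0} (h : y ≠ y') (a a' : A) :
    Commute (al j i y a) (al j i y' a') := by
  have h1 : r2 ((sec r2 y0 y)⁻¹ * sec r2 y0 y') y0 ≠ y0 := by
    intro hc
    apply h
    apply Subtype.ext
    rw [map_mul, Equiv.Perm.mul_apply, sec_spec, map_inv] at hc
    have h2 : r2 (sec r2 y0 y) ((r2 (sec r2 y0 y)).symm y'.1) = r2 (sec r2 y0 y) y0 :=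
      congrArg _ hc
    rw [Equiv.apply_symm_apply, sec_spec] at h2
    exact h2.symm
  have h2 := D.c2 a a' _ h1
  have h3 := h2.map (MulAut.conj (i (sec r2 y0 y))).toMonoidHom
  have e1 : (MulAut.conj (i (sec r2 y0 y))).toMonoidHom (j a) = al j i y a := rfl
  have e2 : (MulAut.conj (i (sec r2 y0 y))).toMonoidHom (i ((sec r2 y0 y)⁻¹ * sec r2 y0 y') * j a' *
      (i ((sec r2 y0 y)⁻¹ * sec r2 y0 y'))⁻¹) = al j i y' a' := by
    have e0 : i ((sec r2 y0 y)⁻¹ * sec r2 y0 y') = (i (sec r2 y0 y))⁻¹ * i (sec r2 y0 y') := by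
      rw [map_mul, map_inv]
    rw [al_apply, e0]
    show i (sec r2 y0 y) * ((i (sec r2 y0 y))⁻¹ * i (sec r2 y0 y') * j a' *
      ((i (sec r2 y0 y))⁻¹ * i (sec r2 y0 y'))⁻¹) * (i (sec r2 y0 y))⁻¹ = _
    group
  rw [e1, e2] at h3
  exact h3

theorem Dat.psi_al (D : Dat r1 r2 y0 j i Ψ) (y : Orb r2 y0) (a : A) :
    Ψ (al j i y a) = bA r1 r2 y0 (Pi.mulSingle y a) := by
  rw [al_apply, map_mul, map_mul, map_inv, D.pi, D.pj, gb_single]
  congr 2
  apply Subtype.ext
  rw [rO_val]
  exact sec_spec r2 y0 y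

/-- the part of the base group over a finite set -/
theorem Dat.fin_part (D : Dat r1 r2 y0 j i Ψ) (T : Finset (Orb r2 y0)) :
    ∀ m ∈ (⨆ y ∈ T, (al j i y).range : Subgroup P), ∃ a : Orb r2 y0 → A, (∀ y, y ∉ T → a y = 1) ∧
      Ψ m = bA r1 r2 y0 a ∧ ∀ K : Subgroup P, (∀ y, al j i y (a y) ∈ K) → m ∈ K := by
  induction T using Finset.induction_on with
  | empty =>
    intro m hm
    simp only [Finset.notMem_empty, iSup_false, iSup_bot, Subgroup.mem_bot] at hm
    subst hm
    exact ⟨1, fun _ _ => rfl, by rw [map_one, map_one], fun K _ => K.one_mem⟩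
  | insert y T hy ih =>
    intro m hm
    rw [Finset.iSup_insert] at hm
    have hcomm : ∀ u ∈ (al j i y).range, ∀ v ∈ (⨆ y ∈ T, (al j i y).range : Subgroup P),
        Commute u v := by
      rintro _ ⟨b, rfl⟩ v hv
      have hle : (⨆ y ∈ T, (al j i y).range : Subgroup P) ≤
          Subgroup.centralizer {al j i y b} := by
        apply iSup₂_le
        rintro y' hy' _ ⟨b', rfl⟩
        rw [Subgroup.mem_centralizer_singleton_iff]
        have hne : y ≠ y' := fun h => hy (h ▸ hy')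
        exact (D.al_comm hne b b').symm
      have := hle hv
      rw [Subgroup.mem_centralizer_singleton_iff] at this
      exact this.symm
    have hdec : ∃ u ∈ (al j i y).range,
        ∃ v ∈ (⨆ y ∈ T, (al j i y).range : Subgroup P), u * v = m := by
      have hm' : m ∈ Subgroup.closure (((al j i y).range : Set P) ∪
          ((⨆ y ∈ T, (al j i y).range : Subgroup P) : Set P)) := by
        rw [Subgroup.closure_union, Subgroup.closure_eq, Subgroup.closure_eq]
        exact hm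
      clear hm
      induction hm' using Subgroup.closure_induction with
      | mem w hw =>
        rcases hw with hw | hw
        · exact ⟨w, hw, 1, Subgroup.one_mem _, mul_one w⟩
        · exact ⟨1, Subgroup.one_mem _, w, hw, one_mul w⟩
      | one => exact ⟨1, Subgroup.one_mem _, 1, Subgroup.one_mem _, mul_one 1⟩
      | mul s t _ _ hs ht =>
        obtain ⟨u, hu, v, hv, rfl⟩ := hs
        obtain ⟨u', hu', v', hv', rfl⟩ := ht
        refine ⟨u * u', Subgroup.mul_mem _ hu hu', v * v', Subgroup.mul_mem _ hv hv', ?_⟩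
        have := (hcomm u' hu' v hv).eq
        calc u * u' * (v * v') = u * (u' * v) * v' := by group
          _ = u * v * (u' * v') := by rw [this]; group
      | inv s _ hs =>
        obtain ⟨u, hu, v, hv, rfl⟩ := hs
        refine ⟨u⁻¹, Subgroup.inv_mem _ hu, v⁻¹, Subgroup.inv_mem _ hv, ?_⟩
        have := (hcomm u hu v hv).eq
        rw [this, mul_inv_rev]
    obtain ⟨u, hu, v, hv, rfl⟩ := hdec
    obtain ⟨b, rfl⟩ := hu
    obtain ⟨a, h1, h2, h3⟩ := ih v hv
    refine ⟨Pi.mulSingle y b * a, ?_, ?_, ?_⟩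
    · intro z hz
      have hz1 : z ≠ y := fun h => hz (h ▸ Finset.mem_insert_self y T)
      have hz2 : z ∉ T := fun h => hz (Finset.mem_insert_of_mem h)
      rw [Pi.mul_apply, Pi.mulSingle_eq_of_ne hz1, h1 z hz2, one_mul]
    · rw [map_mul, map_mul, h2, D.psi_al]
    · intro K hK
      have k1 : al j i y b ∈ K := by
        have := hK y
        rwa [Pi.mul_apply, Pi.mulSingle_eq_same, h1 y hy, mul_one] at this
      apply K.mul_mem k1
      apply h3
      intro z
      by_cases hz : z = y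
      · subst hz
        rw [h1 z hy, map_one]
        exact K.one_mem
      · have := hK z
        rwa [Pi.mul_apply, Pi.mulSingle_eq_of_ne hz, one_mul] at this

/-- every element is a product of an element of the base and an element of the top -/
theorem Dat.decomp (D : Dat r1 r2 y0 j i Ψ) (p : P) : ∃ m : P, ∃ g : G, p = m * i g ∧
    ∃ a : Orb r2 y0 → A, Ψ m = bA r1 r2 y0 a ∧
      ∀ K : Subgroup P, (∀ y, al j i y (a y) ∈ K) → m ∈ K := by
  let M : Subgroup P := ⨆ y : Orb r2 y0, (al j i y).range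
  have hconj : ∀ g : G, ∀ m ∈ M, i g * m * (i g)⁻¹ ∈ M := by
    intro g
    have hle : M ≤ M.comap (MulAut.conj (i g)).toMonoidHom := by
      apply iSup_le
      rintro y _ ⟨a, rfl⟩
      show i g * al j i y a * (i g)⁻¹ ∈ M
      rw [D.al_conj]
      exact Subgroup.mem_iSup_of_mem _ ⟨a, rfl⟩
    intro m hm
    exact hle hm
  have hj : ∀ a, j a ∈ M := by
    intro a
    rw [← D.al_bp]
    exact Subgroup.mem_iSup_of_mem _ ⟨a, rfl⟩
  have key : ∃ m ∈ M, ∃ g : G, p = m * i g := by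
    have hp : p ∈ Subgroup.closure ((j.range : Set P) ∪ (i.range : Set P)) := by
      rw [Subgroup.closure_union, Subgroup.closure_eq, Subgroup.closure_eq, D.gen]
      exact Subgroup.mem_top p
    induction hp using Subgroup.closure_induction with
    | mem w hw =>
      rcases hw with ⟨a, rfl⟩ | ⟨g, rfl⟩
      · exact ⟨j a, hj a, 1, by rw [map_one, mul_one]⟩
      · exact ⟨1, M.one_mem, g, by rw [one_mul]⟩
    | one => exact ⟨1, M.one_mem, 1, by rw [map_one, mul_one]⟩
    | mul u v _ _ hu hv =>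
      obtain ⟨m, hm, g, rfl⟩ := hu
      obtain ⟨m', hm', g', rfl⟩ := hv
      refine ⟨m * (i g * m' * (i g)⁻¹), M.mul_mem hm (hconj g m' hm'), g * g', ?_⟩
      rw [map_mul]
      group
    | inv u _ hu =>
      obtain ⟨m, hm, g, rfl⟩ := hu
      refine ⟨i g⁻¹ * m⁻¹ * (i g⁻¹)⁻¹, hconj g⁻¹ _ (M.inv_mem hm), g⁻¹, ?_⟩
      rw [map_inv]
      group
  obtain ⟨m, hm, g, rfl⟩ := key
  refine ⟨m, g, rfl, ?_⟩
  have hm2 : m ∈ ⨆ T : Finset (Orb r2 y0), ⨆ y ∈ T, (al j i y).range := by
    rw [← iSup_eq_iSup_finset]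
    exact hm
  rw [Subgroup.mem_iSup_of_directed] at hm2
  · obtain ⟨T, hT⟩ := hm2
    obtain ⟨a, -, h2, h3⟩ := D.fin_part T m hT
    exact ⟨a, h2, h3⟩
  · intro T T'
    refine ⟨T ∪ T', ?_, ?_⟩
    · exact biSup_mono fun y hy => Finset.mem_union_left _ hy
    · exact biSup_mono fun y hy => Finset.mem_union_right _ hy

/-- the action is faithful -/
theorem Dat.inj (D : Dat r1 r2 y0 j i Ψ) (h1 : Function.Injective r1)
    (h2 : Function.Injective r2) : Function.Injective Ψ := by
  rw [injective_iff_map_eq_one]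
  intro p hp
  obtain ⟨m, g, rfl, a, ha, hK⟩ := D.decomp p
  rw [map_mul, ha, D.pi] at hp
  have hg : g = 1 := by
    apply h2
    rw [map_one]
    apply Equiv.ext
    intro z
    have h := congrArg (fun e : Equiv.Perm (ZZ r2 y0 X1) => e (Sum.inr z)) hp
    exact Sum.inr_injective h
  subst hg
  have ha1 : ∀ y, a y = 1 := by
    intro y
    apply h1
    rw [map_one]
    apply Equiv.ext
    intro x
    rw [map_one, mul_one] at hp
    have h := congrArg (fun e : Equiv.Perm (ZZ r2 y0 X1) => e (Sum.inl (x, y))) hp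
    exact congrArg Prod.fst (Sum.inl_injective h)
  rw [map_one, mul_one]
  have := hK ⊥ (fun y => by rw [ha1 y, map_one]; exact Subgroup.one_mem _)
  exact this

end abs

end Pool.Agent.X265.Wr
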