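import Pool.Agent.X265.Wr.Emb

/-!
# Closure properties of the class of groups which embed in groups of type (A)
-/

set_option autoImplicit false

namespace Pool.Agent.X265.Wr

open Classical Pool.Agent.Results.MP_24fec0_al.TypeAOligomorphic

section prod

variable {A G X1 X2 : Type} [Group A] [Group G]

/-- the action of a direct product on the product set -/
def pA (r1 : A →* Equiv.Perm X1) (r2 : G →* Equiv.Perm X2) : A × G →* Equiv.Perm (X1 × X2) where
  toFun g := Equiv.prodCongr (r1 g.1) (r2 g.2)
  map_one' := by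
    apply Equiv.ext
    intro z
    show (r1 1 z.1, r2 1 z.2) = z
    rw [map_one, map_one]
    rfl
  map_mul' g h := by
    apply Equiv.ext
    intro z
    show (r1 (g.1 * h.1) z.1, r2 (g.2 * h.2) z.2) = (r1 g.1 (r1 h.1 z.1), r2 g.2 (r2 h.2 z.2))
    rw [map_mul, map_mul]
    rfl

theorem pA_apply (r1 : A →* Equiv.Perm X1) (r2 : G →* Equiv.Perm X2) (g : A × G) (z : X1 × X2) :
    pA r1 r2 g z = (r1 g.1 z.1, r2 g.2 z.2) := rfl

theorem pA_ta {r1 : A →* Equiv.Perm X1} {r2 : G →* Equiv.Perm X2} (h1 : TA r1) (h2 : TA r2)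
    (n1 : Nonempty X1) (n2 : Nonempty X2) : TA (pA r1 r2) := by
  obtain ⟨x1⟩ := n1
  obtain ⟨x2⟩ := n2
  refine ⟨?_, ?_, ?_⟩
  · rw [injective_iff_map_eq_one]
    rintro ⟨a, g⟩ h
    apply Prod.ext
    · apply h1.inj
      show r1 a = r1 1
      rw [map_one]
      apply Equiv.ext
      intro x
      exact congrArg Prod.fst (congrArg (fun e : Equiv.Perm (X1 × X2) => e (x, x2)) h)
    · apply h2.inj
      show r2 g = r2 1
      rw [map_one]
      apply Equiv.ext
      intro x
      exact congrArg Prod.snd (congrArg (fun e : Equiv.Perm (X1 × X2) => e (x1, x)) h)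
  · obtain ⟨F1, hF1, k1⟩ := h1.orb
    obtain ⟨F2, hF2, k2⟩ := h2.orb
    refine ⟨F1 ×ˢ F2, hF1.prod hF2, ?_⟩
    rintro ⟨z1, z2⟩ ⟨w1, w2⟩
    obtain ⟨u1, hu1, v1, hv1, g1, hg1, hg1'⟩ := k1 z1 w1
    obtain ⟨u2, hu2, v2, hv2, g2, hg2, hg2'⟩ := k2 z2 w2
    refine ⟨(u1, u2), ⟨hu1, hu2⟩, (v1, v2), ⟨hv1, hv2⟩, (g1, g2), ?_, ?_⟩
    · rw [pA_apply]
      exact Prod.ext hg1 hg2
    · rw [pA_apply]
      exact Prod.ext hg1' hg2'
  · rintro ⟨z1, z2⟩
    have : stb (pA r1 r2) (z1, z2) = (stb r1 z1).prod (stb r2 z2) := by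
      ext g
      rw [Subgroup.mem_prod, mem_stb, mem_stb, mem_stb, pA_apply, Prod.mk.injEq]
    rw [this]
    exact (h1.stab z1).prod (h2.stab z2)

theorem fp_prod' [Group.IsFinitelyPresented A] [Group.IsFinitelyPresented G] :
    Group.IsFinitelyPresented (A × G) := by
  have hA : Group.FG A := by
    obtain ⟨n, ψ, hψ, -⟩ := (inferInstance : Group.IsFinitelyPresented A)
    exact Group.fg_of_surjective hψ
  have hG : Group.FG G := by
    obtain ⟨n, ψ, hψ, -⟩ := (inferInstance : Group.IsFinitelyPresented G)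
    exact Group.fg_of_surjective hψ
  obtain ⟨S, hS⟩ := hA.out
  obtain ⟨T, hT⟩ := hG.out
  exact Pool.Agent.TH74.Oligo.fp_prod A G S S.finite_toSet hS T T.finite_toSet hT

end prod

theorem embeds_mono {H K : Type} [Group H] [Group K] (f : H →* K) (hf : Function.Injective f)
    (h : EmbedsTypeA K) : EmbedsTypeA H := by
  obtain ⟨m, rels, φ, S, hS, ρ, hφ, hρ, h1, h2⟩ := h
  exact ⟨m, rels, φ.comp f, S, hS, ρ, hφ.comp hf, hρ, h1, h2⟩

/-- **direct products** -/
theorem embeds_prod {H K : Type} [Group H] [Group K] (h1 : EmbedsTypeA H) (h2 : EmbedsTypeA K) :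
    EmbedsTypeA (H × K) := by
  obtain ⟨A, _, X, r1, φ1, hA, hA', hX, t1, k1⟩ := of_embeds h1
  obtain ⟨B, _, Y, r2, φ2, hB, hB', hY, t2, k2⟩ := of_embeds h2
  haveI : Group.IsFinitelyPresented (A × B) := fp_prod'
  have ht : TA (pA r1 r2) := pA_ta t1 t2 inferInstance inferInstance
  refine embeds_mono (MonoidHom.prodMap φ1 φ2) ?_
    (embeds_of (pA r1 r2) ht (pA r1 r2) ht.inj le_rfl)
  intro u v h
  exact Prod.ext (k1 (congrArg Prod.fst h)) (k2 (congrArg Prod.snd h))

/-- `H` embeds in a finitely presented group with an action of type (A) in which some finite set of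
points has trivial pointwise stabilizer in `H` -/
def FiniteBase (H : Type) [Group H] : Prop :=
  ∃ (G : Type) (_ : Group G) (X : Type) (r : G →* Equiv.Perm X) (φ : H →* G) (F : Finset X),
    Group.IsFinitelyPresented G ∧ TA r ∧ Function.Injective φ ∧
      ∀ h : H, (∀ x ∈ F, r (φ h) x = x) → h = 1

/-- a finite set of points can be replaced by one point -/
theorem one_point {H : Type} [Group H] (h : FiniteBase H) :
    ∃ (G : Type) (_ : Group G) (X : Type) (r : G →* Equiv.Perm X) (φ : H →* G) (x : X),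
      Group.IsFinitelyPresented G ∧ TA r ∧ Function.Injective φ ∧
        ∀ h : H, r (φ h) x = x → h = 1 := by
  obtain ⟨G, _, X, r, φ, F, hG, hr, hφ, hF⟩ := h
  by_cases hX : Nonempty X
  · obtain ⟨x0⟩ := hX
    have key : ∀ F : Finset X, ∃ (G' : Type) (_ : Group G') (X' : Type)
        (r' : G' →* Equiv.Perm X') (φ' : H →* G') (x : X'),
        Group.IsFinitelyPresented G' ∧ TA r' ∧ Function.Injective φ' ∧
          ∀ h : H, r' (φ' h) x = x → ∀ y ∈ F, r (φ h) y = y := by
      intro F
      induction F using Finset.induction_on with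
      | empty => exact ⟨G, inferInstance, X, r, φ, x0, hG, hr, hφ, fun _ _ y hy => by simp at hy⟩
      | insert y F _ ih =>
        obtain ⟨G', _, X', r', φ', x, hG', hr', hφ', h'⟩ := ih
        refine ⟨G' × G, inferInstance, X' × X, pA r' r, φ'.prod φ, (x, y), fp_prod',
          pA_ta hr' hr ⟨x⟩ ⟨y⟩, ?_, ?_⟩
        · intro a b hab
          exact hφ (congrArg Prod.snd hab)
        · intro h hh z hz
          rw [pA_apply] at hh
          rcases Finset.mem_insert.1 hz with rfl | hz
          · exact congrArg Prod.snd hh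
          · exact h' h (congrArg Prod.fst hh) z hz
    obtain ⟨G', i1, X', r', φ', x, hG', hr', hφ', h'⟩ := key F
    exact ⟨G', i1, X', r', φ', x, hG', hr', hφ', fun h hh => hF h (h' h hh)⟩
  · have hH : ∀ h : H, h = 1 := fun h => hF h (fun x _ => (hX ⟨x⟩).elim)
    refine ⟨PUnit, inferInstance, PUnit, 1, 1, PUnit.unit, inferInstance, ?_, ?_, fun h _ => hH h⟩
    · refine ⟨fun a b _ => Subsingleton.elim a b, ⟨Set.univ, Set.finite_univ, fun z w =>
        ⟨z, trivial, w, trivial, 1, rfl, rfl⟩⟩, fun z => ?_⟩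
      refine fg_of Set.univ Set.finite_univ ?_
      apply le_antisymm
      · rw [Subgroup.closure_le]
        intro x _
        exact Subsingleton.elim _ _
      · intro x _
        exact Subgroup.subset_closure (Set.mem_univ x)
    · intro a b _
      rw [hH a, hH b]

/-- left multiplication -/
def lreg (Q : Type) [Group Q] : Q →* Equiv.Perm Q := MulAction.toPermHom Q Q

/-- the restricted standard wreath product -/
abbrev RW (B Q : Type) [Group B] [Group Q] : Type := PW B (lreg Q)

section ext

variable {B Q Y : Type} [Group B] [Group Q] (s : Q →* Equiv.Perm Y) (o : Q → Y)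
  (ho : Function.Injective o)

/-- extension by one -/
noncomputable def extF : fs B Q →* fs B Y where
  toFun f := ⟨Function.extend o f.1 1, by
    refine (f.2.image o).subset ?_
    intro y hy
    by_cases h : ∃ q, o q = y
    · obtain ⟨q, rfl⟩ := h
      refine ⟨q, ?_, rfl⟩
      intro hq
      apply hy
      rw [ho.extend_apply]
      exact hq
    · exfalso
      apply hy
      rw [Function.extend_apply' _ _ _ h]
      rfl⟩
  map_one' := by
    apply Subtype.ext
    funext y
    show Function.extend o (1 : Q → B) 1 y = 1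
    by_cases h : ∃ q, o q = y
    · obtain ⟨q, rfl⟩ := h
      rw [ho.extend_apply]
      rfl
    · rw [Function.extend_apply' _ _ _ h]
      rfl
  map_mul' f g := by
    apply Subtype.ext
    funext y
    show Function.extend o (f.1 * g.1) 1 y = Function.extend o f.1 1 y * Function.extend o g.1 1 y
    by_cases h : ∃ q, o q = y
    · obtain ⟨q, rfl⟩ := h
      rw [ho.extend_apply, ho.extend_apply, ho.extend_apply]
      rfl
    · rw [Function.extend_apply' _ _ _ h, Function.extend_apply' _ _ _ h,
        Function.extend_apply' _ _ _ h]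
      show (1 : B) = 1 * 1
      rw [mul_one]

theorem extF_apply (f : fs B Q) (q : Q) : (extF o ho f).1 (o q) = f.1 q :=
  ho.extend_apply _ _ _

theorem extF_inj : Function.Injective (extF (B := B) o ho) := by
  intro f g h
  apply Subtype.ext
  funext q
  rw [← extF_apply o ho f, ← extF_apply o ho g, h]

/-- the embedding of the standard wreath product -/
noncomputable def rwMap (hs : ∀ p q, s p (o q) = o (p * q)) : RW B Q →* PW B s :=
  SemidirectProduct.map (extF o ho) (MonoidHom.id Q) (by
    intro q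
    apply MonoidHom.ext
    intro f
    apply Subtype.ext
    funext y
    show Function.extend o (fun z => f.1 ((lreg Q q).symm z)) 1 y =
      Function.extend o f.1 1 ((s q).symm y)
    by_cases h : ∃ p, o p = y
    · obtain ⟨p, rfl⟩ := h
      have h1 : (s q).symm (o p) = o (q⁻¹ * p) := by
        rw [Equiv.symm_apply_eq, hs, mul_inv_cancel_left]
      rw [h1, ho.extend_apply, ho.extend_apply]
      rfl
    · have h1 : ¬ ∃ p, o p = (s q).symm y := by
        rintro ⟨p, hp⟩
        apply h
        refine ⟨q * p, ?_⟩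
        rw [← hs, hp, Equiv.apply_symm_apply]
      rw [Function.extend_apply' _ _ _ h, Function.extend_apply' _ _ _ h1]
      rfl)

theorem rwMap_inj (hs : ∀ p q, s p (o q) = o (p * q)) :
    Function.Injective (rwMap (B := B) s o ho hs) := by
  intro u v h
  apply SemidirectProduct.ext
  · exact extF_inj o ho (congrArg (fun w : PW B s => w.left) h)
  · exact congrArg (fun w : PW B s => w.right) h

end ext

/-- **standard wreath products** -/
theorem embeds_RW {H1 H2 : Type} [Group H1] [Group H2] (h1 : EmbedsTypeA H1)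
    (h2 : FiniteBase H2) : EmbedsTypeA (RW H1 H2) := by
  obtain ⟨G, _, X, r, φ, x, hG, hr, hφ, hx⟩ := one_point h2
  have hP := embeds_PW h1 hr φ hφ x
  let o : H2 → Orb r x := fun q => ⟨r (φ q) x, φ q, rfl⟩
  have ho : Function.Injective o := by
    intro p q h
    have h3 : r (φ p) x = r (φ q) x := congrArg Subtype.val h
    have h4 : q⁻¹ * p = 1 := by
      apply hx
      rw [map_mul, map_mul, Equiv.Perm.mul_apply, h3, map_inv, map_inv]
      exact (r (φ q)).symm_apply_apply x
    exact (inv_mul_eq_one.1 h4).symm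
  refine embeds_mono (rwMap ((rO r x).comp φ) o ho ?_) (rwMap_inj _ _ _ _) hP
  intro p q
  apply Subtype.ext
  show r (φ p) (r (φ q) x) = r (φ (p * q)) x
  rw [map_mul, map_mul]
  rfl

/-- finite base: direct products -/
theorem base_prod {H K : Type} [Group H] [Group K] (h1 : FiniteBase H) (h2 : FiniteBase K) :
    FiniteBase (H × K) := by
  obtain ⟨G, _, X, r, φ, x, hG, hr, hφ, hx⟩ := one_point h1
  obtain ⟨G', _, X', r', φ', x', hG', hr', hφ', hx'⟩ := one_point h2
  refine ⟨G × G', inferInstance, X × X', pA r r', MonoidHom.prodMap φ φ', {(x, x')}, fp_prod',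
    pA_ta hr hr' ⟨x⟩ ⟨x'⟩, ?_, ?_⟩
  · intro u v h
    exact Prod.ext (hφ (congrArg Prod.fst h)) (hφ' (congrArg Prod.snd h))
  · rintro ⟨h, k⟩ hh
    have h3 := hh (x, x') (Finset.mem_singleton_self _)
    exact Prod.ext (hx h (congrArg Prod.fst h3)) (hx' k (congrArg Prod.snd h3))

end Pool.Agent.X265.Wr
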