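import Pool.Agent.X265.Wr.Pres
import Pool.Agent.Results.MP_24fec0_al.TypeAOligomorphic

/-!
# Embeddings in groups with an action of type (A)
-/

set_option autoImplicit false

namespace Pool.Agent.X265.Wr

open Classical Pool.Agent.Results.MP_24fec0_al.TypeAOligomorphic

/-- from our form to the presented form -/
theorem embeds_of {H P Z : Type} [Group H] [Group P] [Group.IsFinitelyPresented P] [Infinite Z]
    (r : P →* Equiv.Perm Z) (hr : TA r) (κ : H →* Equiv.Perm Z) (hκ : Function.Injective κ)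
    (hrange : κ.range ≤ r.range) : EmbedsTypeA H := by
  obtain ⟨n, R, hR, ⟨θ⟩⟩ := Group.IsFinitelyPresented.exists_mulEquiv_presentedGroup (G := P)
  obtain ⟨R', rfl⟩ := hR.exists_finset_coe
  let e : P ≃* r.range := MonoidHom.ofInjective hr.inj
  let κ' : H →* r.range := κ.codRestrict r.range (fun h => hrange ⟨h, rfl⟩)
  have hκ' : Function.Injective κ' := fun a b h => hκ (congrArg Subtype.val h)
  let φ : H →* PresentedGroup (R' : Set (FreeGroup (Fin n))) :=
    θ.toMonoidHom.comp (e.symm.toMonoidHom.comp κ')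
  let ρ : PresentedGroup (R' : Set (FreeGroup (Fin n))) →* Equiv.Perm Z :=
    r.comp θ.symm.toMonoidHom
  refine ⟨n, R', φ, Z, inferInstance, ρ, ?_, ?_, ?_, ?_⟩
  · exact θ.injective.comp (e.symm.injective.comp hκ')
  · exact hr.inj.comp θ.symm.injective
  · obtain ⟨F, hF, h⟩ := hr.orb
    let T : Z × Z → Set (Z × Z) := fun x =>
      {y : Z × Z | ∃ h : PresentedGroup (R' : Set (FreeGroup (Fin n))), y = (ρ h x.1, ρ h x.2)}
    have hT : Set.range T ⊆ T '' (F ×ˢ F) := by
      rintro _ ⟨⟨z, w⟩, rfl⟩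
      obtain ⟨z0, hz0, w0, hw0, g, hg, hg'⟩ := h z w
      refine ⟨(z0, w0), ⟨hz0, hw0⟩, ?_⟩
      have hρ : ∀ k x, ρ k x = r (θ.symm k) x := fun _ _ => rfl
      ext y
      constructor
      · rintro ⟨k, rfl⟩
        refine ⟨k * θ g⁻¹, ?_⟩
        have e1 : ρ (k * θ g⁻¹) z = ρ k z0 := by
          rw [map_mul, Equiv.Perm.mul_apply, hρ (θ g⁻¹), MulEquiv.symm_apply_apply, ← hg, map_inv]
          congr 1
          exact (r g).symm_apply_apply z0
        have e2 : ρ (k * θ g⁻¹) w = ρ k w0 := by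
          rw [map_mul, Equiv.Perm.mul_apply, hρ (θ g⁻¹), MulEquiv.symm_apply_apply, ← hg', map_inv]
          congr 1
          exact (r g).symm_apply_apply w0
        show (ρ k z0, ρ k w0) = (ρ (k * θ g⁻¹) z, ρ (k * θ g⁻¹) w)
        rw [e1, e2]
      · rintro ⟨k, rfl⟩
        refine ⟨k * θ g, ?_⟩
        have e1 : ρ (k * θ g) z0 = ρ k z := by
          rw [map_mul, Equiv.Perm.mul_apply, hρ (θ g), MulEquiv.symm_apply_apply, hg]
        have e2 : ρ (k * θ g) w0 = ρ k w := by
          rw [map_mul, Equiv.Perm.mul_apply, hρ (θ g), MulEquiv.symm_apply_apply, hg']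
        show (ρ k z, ρ k w) = (ρ (k * θ g) z0, ρ (k * θ g) w0)
        rw [e1, e2]
    exact ((hF.prod hF).image T).subset hT
  · intro s
    have h1 : (MulAction.stabilizer (Equiv.Perm Z) s).comap ρ = (stb r s).map θ.toMonoidHom := by
      ext k
      constructor
      · intro hk
        refine ⟨θ.symm k, hk, θ.apply_symm_apply k⟩
      · rintro ⟨p, hp, rfl⟩
        show ρ (θ p) s = s
        have hp1 : r p s = s := hp
        show r (θ.symm (θ p)) s = s
        rw [MulEquiv.symm_apply_apply, hp1]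
    rw [h1]
    obtain ⟨S, hS⟩ := hr.stab s
    refine fg_of (θ.toMonoidHom '' (S : Set P)) (S.finite_toSet.image _) ?_
    rw [← MonoidHom.map_closure, hS]

/-- from the presented form to our form -/
theorem of_embeds {H : Type} [Group H] (h : EmbedsTypeA H) : ∃ (A : Type) (_ : Group A) (X : Type)
    (r : A →* Equiv.Perm X) (φ : H →* A), Group.IsFinitelyPresented A ∧ Group.FG A ∧ Infinite X ∧
      TA r ∧ Function.Injective φ := by
  obtain ⟨m, rels, φ, S, hS, ρ, hφ, hρ, hpairs, hst⟩ := h
  have hGfp : Group.IsFinitelyPresented (PresentedGroup (rels : Set (FreeGroup (Fin m)))) :=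
    inferInstance
  have hGfg : Group.FG (PresentedGroup (rels : Set (FreeGroup (Fin m)))) := by
    obtain ⟨n, ψ, hψ, -⟩ := hGfp
    exact Group.fg_of_surjective hψ
  refine ⟨PresentedGroup (rels : Set (FreeGroup (Fin m))), inferInstance, S, ρ, φ, hGfp, hGfg, hS,
    ⟨hρ, ?_, hst⟩, hφ⟩
  let f : S × S → Set (S × S) := fun x => {y : S × S |
    ∃ h : PresentedGroup (rels : Set (FreeGroup (Fin m))), y = (ρ h x.1, ρ h x.2)}
  have hf : (Set.range f).Finite := hpairs
  have hc : ∀ B : Set.range f, ∃ x, f x = B := fun B => B.2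
  choose c hc using hc
  have hfin : Finite (Set.range f) := hf
  have hE : (Set.range c).Finite := Set.finite_range c
  refine ⟨Prod.fst '' Set.range c ∪ Prod.snd '' Set.range c,
    (hE.image _).union (hE.image _), ?_⟩
  intro z w
  have h1 := hc ⟨f (z, w), (z, w), rfl⟩
  have h2 : (z, w) ∈ f (z, w) := ⟨1, by simp⟩
  have h3 : (z, w) ∈ f (c ⟨f (z, w), (z, w), rfl⟩) := by rw [h1]; exact h2
  obtain ⟨g, hg⟩ := h3
  refine ⟨(c ⟨f (z, w), (z, w), rfl⟩).1, Or.inl ⟨_, ⟨_, rfl⟩, rfl⟩,
    (c ⟨f (z, w), (z, w), rfl⟩).2, Or.inr ⟨_, ⟨_, rfl⟩, rfl⟩, g, ?_, ?_⟩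
  · exact (congrArg Prod.fst hg).symm
  · exact (congrArg Prod.snd hg).symm

/-- the finitely supported functions -/
def fs (B Y : Type) [Group B] : Subgroup (Y → B) where
  carrier := {f | {y | f y ≠ 1}.Finite}
  one_mem' := by
    show {y : Y | (1 : Y → B) y ≠ 1}.Finite
    simp
  mul_mem' := by
    intro f g hf hg
    refine (hf.union hg).subset ?_
    intro y hy
    by_contra hcon
    have h1 : f y = 1 := by
      by_contra h
      exact hcon (Or.inl h)
    have h2 : g y = 1 := by
      by_contra h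
      exact hcon (Or.inr h)
    exact hy (by rw [Pi.mul_apply, h1, h2, one_mul])
  inv_mem' := by
    intro f hf
    refine hf.subset ?_
    intro y hy h
    exact hy (by rw [Pi.inv_apply, h, inv_one])

/-- moving the arguments of a finitely supported function -/
def fsMv (B : Type) [Group B] {Y : Type} (e : Equiv.Perm Y) (f : fs B Y) : fs B Y :=
  ⟨fun y => f.1 (e.symm y), f.2.preimage e.symm.injective.injOn⟩

theorem fsMv_symm {B : Type} [Group B] {Y : Type} (e : Equiv.Perm Y) (f : fs B Y) :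
    fsMv B e.symm (fsMv B e f) = f :=
  Subtype.ext (funext fun y => congrArg f.1 (e.symm_apply_apply y))

theorem fsMv_symm' {B : Type} [Group B] {Y : Type} (e : Equiv.Perm Y) (f : fs B Y) :
    fsMv B e (fsMv B e.symm f) = f :=
  Subtype.ext (funext fun y => congrArg f.1 (e.apply_symm_apply y))

theorem fsMv_mul {B : Type} [Group B] {Y : Type} (e : Equiv.Perm Y) (f g : fs B Y) :
    fsMv B e (f * g) = fsMv B e f * fsMv B e g := rfl

/-- the automorphism given by a permutation -/
def fsAut (B : Type) [Group B] {Y : Type} (e : Equiv.Perm Y) : MulAut (fs B Y) where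
  toFun := fsMv B e
  invFun := fsMv B e.symm
  left_inv := fsMv_symm e
  right_inv := fsMv_symm' e
  map_mul' := fsMv_mul e

theorem fsAut_mul {B : Type} [Group B] {Y : Type} (d e : Equiv.Perm Y) :
    fsAut B (d * e) = fsAut B d * fsAut B e := rfl

/-- the action of a permutation group on the finitely supported functions,
`(q f) y = f (q⁻¹ y)` -/
def fsAct (B : Type) [Group B] {Q Y : Type} [Group Q] (s : Q →* Equiv.Perm Y) :
    Q →* MulAut (fs B Y) :=
  (MonoidHom.mk' (fsAut B) fsAut_mul).comp s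

/-- the restricted permutational wreath product -/
abbrev PW (B : Type) [Group B] {Q Y : Type} [Group Q] (s : Q →* Equiv.Perm Y) : Type :=
  fs B Y ⋊[fsAct B s] Q

section emb

variable {A G X1 X2 : Type} [Group A] [Group G] {r1 : A →* Equiv.Perm X1}
  {r2 : G →* Equiv.Perm X2} {y0 : X2} {P : Type} [Group P] {j : A →* P} {i : G →* P}
  {Ψ : P →* Equiv.Perm (ZZ r2 y0 X1)}

theorem Dat.base_range (D : Dat r1 r2 y0 j i Ψ) (a : Orb r2 y0 → A) (ha : {y | a y ≠ 1}.Finite) :
    bA r1 r2 y0 a ∈ Ψ.range := by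
  have key : ∀ T : Finset (Orb r2 y0), ∀ a : Orb r2 y0 → A, (∀ y, y ∉ T → a y = 1) →
      bA r1 r2 y0 a ∈ Ψ.range := by
    intro T
    induction T using Finset.induction_on with
    | empty =>
      intro a ha
      have : a = 1 := funext fun y => ha y (Finset.notMem_empty y)
      rw [this, map_one]
      exact Subgroup.one_mem _
    | insert y T hy ih =>
      intro a ha
      have h1 : a = Pi.mulSingle y (a y) * Function.update a y 1 := by
        funext z
        by_cases hz : z = y
        · subst hz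
          rw [Pi.mul_apply, Pi.mulSingle_eq_same, Function.update_self, mul_one]
        · rw [Pi.mul_apply, Pi.mulSingle_eq_of_ne hz, Function.update_of_ne hz, one_mul]
      rw [h1, map_mul]
      refine Subgroup.mul_mem _ ⟨al j i y (a y), D.psi_al y (a y)⟩ (ih _ ?_)
      intro z hz
      by_cases hzy : z = y
      · subst hzy
        exact Function.update_self _ _ _
      · rw [Function.update_of_ne hzy]
        apply ha
        intro h
        rcases Finset.mem_insert.1 h with h | h
        · exact hzy h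
        · exact hz h
  exact key ha.toFinset a (fun y hy => by
    by_contra h
    exact hy (by simpa using h))

theorem Dat.top_range (D : Dat r1 r2 y0 j i Ψ) (g : G) : gA r2 y0 X1 g ∈ Ψ.range :=
  ⟨i g, D.pi g⟩

/-- the action of the permutational wreath product of subgroups -/
def kap {H1 H2 : Type} [Group H1] [Group H2] (r1 : A →* Equiv.Perm X1) (r2 : G →* Equiv.Perm X2)
    (y0 : X2) (φ1 : H1 →* A) (φ2 : H2 →* G) :
    PW H1 ((rO r2 y0).comp φ2) →* Equiv.Perm (ZZ r2 y0 X1) :=
  SemidirectProduct.lift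
    ((bA r1 r2 y0).comp
      { toFun := fun f : fs H1 (Orb r2 y0) => fun y => φ1 (f.1 y)
        map_one' := funext fun _ => map_one φ1
        map_mul' := fun f g => funext fun y => map_mul φ1 (f.1 y) (g.1 y) })
    ((gA r2 y0 X1).comp φ2) (by
      intro q
      apply MonoidHom.ext
      intro f
      show bA r1 r2 y0 (fun y => φ1 (f.1 ((rO r2 y0 (φ2 q)).symm y))) =
        gA r2 y0 X1 (φ2 q) * bA r1 r2 y0 (fun y => φ1 (f.1 y)) * (gA r2 y0 X1 (φ2 q))⁻¹
      rw [gb])

theorem kap_apply {H1 H2 : Type} [Group H1] [Group H2] (φ1 : H1 →* A) (φ2 : H2 →* G)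
    (u : PW H1 ((rO r2 y0).comp φ2)) : kap r1 r2 y0 φ1 φ2 u =
      bA r1 r2 y0 (fun y => φ1 (u.left.1 y)) * gA r2 y0 X1 (φ2 u.right) := rfl

theorem kap_inj {H1 H2 : Type} [Group H1] [Group H2] (φ1 : H1 →* A) (φ2 : H2 →* G)
    (h1 : Function.Injective r1) (h2 : Function.Injective r2) (k1 : Function.Injective φ1)
    (k2 : Function.Injective φ2) : Function.Injective (kap r1 r2 y0 φ1 φ2) := by
  rw [injective_iff_map_eq_one]
  intro u hu
  rw [kap_apply] at hu
  have hq : u.right = 1 := by
    apply k2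
    apply h2
    rw [map_one, map_one]
    apply Equiv.ext
    intro z
    exact Sum.inr_injective (congrArg (fun e : Equiv.Perm (ZZ r2 y0 X1) => e (Sum.inr z)) hu)
  rw [hq, map_one, map_one, mul_one] at hu
  apply SemidirectProduct.ext
  · apply Subtype.ext
    funext y
    apply k1
    apply h1
    apply Equiv.ext
    intro x
    have h := congrArg (fun e : Equiv.Perm (ZZ r2 y0 X1) => e (Sum.inl (x, y))) hu
    have h3 : r1 (φ1 (u.left.1 y)) x = x := congrArg Prod.fst (Sum.inl_injective h)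
    rw [h3]
    show x = r1 (φ1 1) x
    rw [map_one, map_one]
    rfl
  · exact hq

theorem kap_range {H1 H2 : Type} [Group H1] [Group H2] (D : Dat r1 r2 y0 j i Ψ) (φ1 : H1 →* A)
    (φ2 : H2 →* G) : (kap r1 r2 y0 φ1 φ2).range ≤ Ψ.range := by
  rintro _ ⟨u, rfl⟩
  rw [kap_apply]
  refine Subgroup.mul_mem _ (D.base_range _ ?_) (D.top_range _)
  refine u.left.2.subset ?_
  intro y hy h
  exact hy (by
    show φ1 (u.left.1 y) = 1
    rw [h, map_one])

/-- **permutational wreath products** -/
theorem embeds_PW {H1 H2 : Type} [Group H1] [Group H2] (hH : EmbedsTypeA H1)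
    [Group.IsFinitelyPresented G] (h2 : TA r2) (φ2 : H2 →* G) (k2 : Function.Injective φ2)
    (y0 : X2) : EmbedsTypeA (PW H1 ((rO r2 y0).comp φ2)) := by
  obtain ⟨A, _, X, r1, φ1, hA, hA', hX, h1, k1⟩ := of_embeds hH
  obtain ⟨P, _, j, i, Ψ, hP, D⟩ := exists_dat r1 r2 y0 hA' h2.orb (h2.stab y0)
  haveI : Infinite (ZZ r2 y0 X) := by
    refine Infinite.of_injective (fun x : X => (Sum.inl (x, bp r2 y0) : ZZ r2 y0 X)) ?_
    intro a b h
    exact congrArg Prod.fst (Sum.inl_injective h)
  exact embeds_of Ψ (D.ta h1 h2 hA') (kap r1 r2 y0 φ1 φ2) (kap_inj φ1 φ2 h1.inj h2.inj k1 k2)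
    (kap_range D φ1 φ2)

end emb

end Pool.Agent.X265.Wr
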