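import Pool.Agent.X265.Wr.Act

/-!
# Finitely many orbits on pairs and finitely generated stabilizers
-/

set_option autoImplicit false

namespace Pool.Agent.X265.Wr

open Classical

variable {A G X1 X2 : Type} [Group A] [Group G] {r1 : A →* Equiv.Perm X1}
  {r2 : G →* Equiv.Perm X2} {y0 : X2} {P : Type} [Group P] {j : A →* P} {i : G →* P}
  {Ψ : P →* Equiv.Perm (ZZ r2 y0 X1)}

theorem orb_of (y : Orb r2 y0) (g : G) (u : X2) (h : r2 g u = y.1) : ∃ k, r2 k y0 = u := by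
  obtain ⟨k, hk⟩ := y.2
  refine ⟨g⁻¹ * k, ?_⟩
  rw [map_mul, Equiv.Perm.mul_apply, hk, ← h, map_inv]
  exact (r2 g).symm_apply_apply u

theorem Dat.top_inl (D : Dat r1 r2 y0 j i Ψ) (g : G) (x : X1) (y : Orb r2 y0) :
    Ψ (i g) (Sum.inl (x, y)) = Sum.inl (x, rO r2 y0 g y) := by
  rw [D.pi]
  rfl

theorem Dat.top_inr (D : Dat r1 r2 y0 j i Ψ) (g : G) (z : X2) :
    Ψ (i g) (Sum.inr z) = Sum.inr (r2 g z) := by
  rw [D.pi]
  rfl

theorem Dat.al_inr (D : Dat r1 r2 y0 j i Ψ) (y : Orb r2 y0) (a : A) (z : X2) :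
    Ψ (al j i y a) (Sum.inr z) = Sum.inr z := by
  rw [D.psi_al]
  rfl

theorem Dat.al_same (D : Dat r1 r2 y0 j i Ψ) (y : Orb r2 y0) (a : A) (x : X1) :
    Ψ (al j i y a) (Sum.inl (x, y)) = Sum.inl (r1 a x, y) := by
  rw [D.psi_al, bA_inl, Pi.mulSingle_eq_same]

theorem Dat.al_ne (D : Dat r1 r2 y0 j i Ψ) {y y' : Orb r2 y0} (h : y' ≠ y) (a : A) (x : X1) :
    Ψ (al j i y a) (Sum.inl (x, y')) = Sum.inl (x, y') := by
  rw [D.psi_al, bA_inl, Pi.mulSingle_eq_of_ne h, map_one]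
  rfl

/-- finitely many orbits on pairs -/
theorem Dat.orb (D : Dat r1 r2 y0 j i Ψ)
    (H1 : ∃ F : Set X1, F.Finite ∧ ∀ z w : X1, ∃ z0 ∈ F, ∃ w0 ∈ F, ∃ g, r1 g z0 = z ∧ r1 g w0 = w)
    (H2 : ∃ F : Set X2, F.Finite ∧ ∀ z w : X2, ∃ z0 ∈ F, ∃ w0 ∈ F, ∃ g, r2 g z0 = z ∧ r2 g w0 = w) :
    ∃ F : Set (ZZ r2 y0 X1), F.Finite ∧ ∀ z w, ∃ z0 ∈ F, ∃ w0 ∈ F, ∃ p, Ψ p z0 = z ∧ Ψ p w0 = w := by
  obtain ⟨F1, hF1, h1⟩ := H1
  obtain ⟨F2, hF2, h2⟩ := H2
  let F : Set (ZZ r2 y0 X1) := Sum.inl '' (F1 ×ˢ (Subtype.val ⁻¹' F2)) ∪ Sum.inr '' F2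
  have hl : ∀ x ∈ F1, ∀ y : Orb r2 y0, y.1 ∈ F2 → (Sum.inl (x, y) : ZZ r2 y0 X1) ∈ F :=
    fun x hx y hy => Or.inl ⟨(x, y), ⟨hx, hy⟩, rfl⟩
  have hr : ∀ z ∈ F2, (Sum.inr z : ZZ r2 y0 X1) ∈ F := fun z hz => Or.inr ⟨z, hz, rfl⟩
  refine ⟨F, ?_, ?_⟩
  · exact ((hF1.prod (hF2.preimage Subtype.val_injective.injOn)).image _).union (hF2.image _)
  · have lr : ∀ (x : X1) (y : Orb r2 y0) (z : X2), ∃ z0 ∈ F, ∃ w0 ∈ F, ∃ p,
        Ψ p z0 = Sum.inl (x, y) ∧ Ψ p w0 = Sum.inr z := by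
      intro x y z
      obtain ⟨u, hu, v, hv, g, hg, hg'⟩ := h2 y.1 z
      obtain ⟨x0, hx0, -, -, a, ha, -⟩ := h1 x x
      let U : Orb r2 y0 := ⟨u, orb_of y g u hg⟩
      have hU : rO r2 y0 g U = y := Subtype.ext hg
      refine ⟨Sum.inl (x0, U), hl x0 hx0 U hu, Sum.inr v, hr v hv, al j i y a * i g, ?_, ?_⟩
      · rw [map_mul, Equiv.Perm.mul_apply, D.top_inl, hU, D.al_same, ha]
      · rw [map_mul, Equiv.Perm.mul_apply, D.top_inr, D.al_inr, hg']
    rintro (⟨x, y⟩ | z) (⟨x', y'⟩ | z')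
    · obtain ⟨u, hu, u', hu', g, hg, hg'⟩ := h2 y.1 y'.1
      let U : Orb r2 y0 := ⟨u, orb_of y g u hg⟩
      have hU : rO r2 y0 g U = y := Subtype.ext hg
      let U' : Orb r2 y0 := ⟨u', orb_of y' g u' hg'⟩
      have hU' : rO r2 y0 g U' = y' := Subtype.ext hg'
      by_cases hyy : y = y'
      · subst hyy
        obtain ⟨v, hv, v', hv', a, ha, ha'⟩ := h1 x x'
        refine ⟨Sum.inl (v, U), hl v hv U hu, Sum.inl (v', U), hl v' hv' U hu,
          al j i y a * i g, ?_, ?_⟩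
        · rw [map_mul, Equiv.Perm.mul_apply, D.top_inl, hU, D.al_same, ha]
        · rw [map_mul, Equiv.Perm.mul_apply, D.top_inl, hU, D.al_same, ha']
      · obtain ⟨v, hv, -, -, a, ha, -⟩ := h1 x x
        obtain ⟨v', hv', -, -, a', ha', -⟩ := h1 x' x'
        refine ⟨Sum.inl (v, U), hl v hv U hu, Sum.inl (v', U'), hl v' hv' U' hu',
          al j i y a * al j i y' a' * i g, ?_, ?_⟩
        · rw [map_mul, map_mul, Equiv.Perm.mul_apply, Equiv.Perm.mul_apply, D.top_inl, hU,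
            D.al_ne hyy, D.al_same, ha]
        · rw [map_mul, map_mul, Equiv.Perm.mul_apply, Equiv.Perm.mul_apply, D.top_inl, hU',
            D.al_same, D.al_ne (fun h => hyy h.symm), ha']
    · exact lr x y z'
    · obtain ⟨z0, hz0, w0, hw0, p, hp, hp'⟩ := lr x' y' z
      exact ⟨w0, hw0, z0, hz0, p, hp', hp⟩
    · obtain ⟨u, hu, v, hv, g, hg, hg'⟩ := h2 z z'
      refine ⟨Sum.inr u, hr u hu, Sum.inr v, hr v hv, i g, ?_, ?_⟩
      · rw [D.top_inr, hg]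
      · rw [D.top_inr, hg']

/-- finitely many orbits of a stabilizer -/
theorem orbD (y0 : X2)
    (H2 : ∃ F : Set X2, F.Finite ∧ ∀ z w : X2, ∃ z0 ∈ F, ∃ w0 ∈ F, ∃ g, r2 g z0 = z ∧ r2 g w0 = w)
    (z : X2) : ∃ E : Set (Orb r2 y0), E.Finite ∧
      ∀ y : Orb r2 y0, ∃ h, r2 h z = z ∧ ∃ d ∈ E, rO r2 y0 h d = y := by
  obtain ⟨F2, hF2, h2⟩ := H2
  let f : X2 × X2 → Orb r2 y0 := fun q =>
    if h : ∃ d : Orb r2 y0, ∃ g, r2 g q.1 = z ∧ r2 g q.2 = d.1 then h.choose else bp r2 y0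
  refine ⟨f '' (F2 ×ˢ F2), (hF2.prod hF2).image f, ?_⟩
  intro y
  obtain ⟨u, hu, v, hv, g, hg, hg'⟩ := h2 z y.1
  have hex : ∃ d : Orb r2 y0, ∃ g, r2 g (u, v).1 = z ∧ r2 g (u, v).2 = d.1 := ⟨y, g, hg, hg'⟩
  have hf : f (u, v) = hex.choose := dif_pos hex
  obtain ⟨k, hk, hk'⟩ := hex.choose_spec
  rw [← hf] at hk'
  have hk1 : r2 k u = z := hk
  have hk2 : r2 k v = (f (u, v)).1 := hk'
  refine ⟨g * k⁻¹, ?_, f (u, v), ⟨(u, v), ⟨hu, hv⟩, rfl⟩, ?_⟩
  · rw [map_mul, map_inv, Equiv.Perm.mul_apply]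
    have : (r2 k)⁻¹ z = u := by rw [← hk1]; exact (r2 k).symm_apply_apply u
    rw [this, hg]
  · apply Subtype.ext
    rw [rO_val, map_mul, map_inv, Equiv.Perm.mul_apply, ← hk2]
    have : (r2 k)⁻¹ (r2 k v) = v := (r2 k).symm_apply_apply v
    rw [this, hg']

theorem closure_top_map {K : Subgroup P} (f : A →* P) (S : Set A) (hS : Subgroup.closure S = ⊤)
    (h : ∀ s ∈ S, f s ∈ K) (a : A) : f a ∈ K := by
  have ha : a ∈ Subgroup.closure S := by rw [hS]; exact Subgroup.mem_top a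
  have hle : Subgroup.closure S ≤ K.comap f := (Subgroup.closure_le _).2 h
  exact hle ha

theorem closure_map {K : Subgroup P} (f : G →* P) (S : Set G) (L : Subgroup G)
    (hS : Subgroup.closure S = L) (h : ∀ s ∈ S, f s ∈ K) (a : G) (ha : a ∈ L) : f a ∈ K := by
  rw [← hS] at ha
  have hle : Subgroup.closure S ≤ K.comap f := (Subgroup.closure_le _).2 h
  exact hle ha

theorem fg_of {L : Subgroup P} (S : Set P) (hS : S.Finite) (h : Subgroup.closure S = L) : L.FG := by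
  refine ⟨hS.toFinset, ?_⟩
  rw [Set.Finite.coe_toFinset]
  exact h

/-- finitely generated stabilizers, second kind of points -/
theorem Dat.stab_inr (D : Dat r1 r2 y0 j i Ψ) (SA : Set A) (hSA : SA.Finite)
    (hA : Subgroup.closure SA = ⊤)
    (H2 : ∃ F : Set X2, F.Finite ∧ ∀ z w : X2, ∃ z0 ∈ F, ∃ w0 ∈ F, ∃ g, r2 g z0 = z ∧ r2 g w0 = w)
    (z : X2) (hz : (stb r2 z).FG) : (stb Ψ (Sum.inr z)).FG := by
  obtain ⟨S, hS⟩ := hz
  obtain ⟨E, hE, hE2⟩ := orbD y0 H2 z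
  let gens : Set P := i '' (S : Set G) ∪ ⋃ d ∈ E, al j i d '' SA
  refine fg_of gens ?_ ?_
  · exact (S.finite_toSet.image _).union (hE.biUnion fun d _ => hSA.image _)
  · apply le_antisymm
    · rw [Subgroup.closure_le]
      rintro w (⟨s, hs, rfl⟩ | hw)
      · show Ψ (i s) (Sum.inr z) = Sum.inr z
        have hs2 : s ∈ stb r2 z := by rw [← hS]; exact Subgroup.subset_closure hs
        rw [D.top_inr, (mem_stb r2 z s).1 hs2]
      · simp only [Set.mem_iUnion] at hw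
        obtain ⟨d, hd, a, ha, rfl⟩ := hw
        exact D.al_inr d a z
    · intro p hp
      obtain ⟨m, g, rfl, a, ha, hK⟩ := D.decomp p
      have hp1 : Ψ (m * i g) (Sum.inr z) = Sum.inr z := hp
      rw [map_mul, Equiv.Perm.mul_apply, D.top_inr, ha, bA_inr] at hp1
      have hg : g ∈ stb r2 z := Sum.inr_injective hp1
      have hi : ∀ h ∈ stb r2 z, i h ∈ Subgroup.closure gens := fun h hh =>
        closure_map i (S : Set G) (stb r2 z) hS
          (fun s hs => Subgroup.subset_closure (Or.inl ⟨s, hs, rfl⟩)) h hh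
      refine Subgroup.mul_mem _ (hK _ ?_) (hi g hg)
      intro y
      obtain ⟨h, hh, d, hd, rfl⟩ := hE2 y
      rw [← D.al_conj]
      refine Subgroup.mul_mem _ (Subgroup.mul_mem _ (hi h hh) ?_) (Subgroup.inv_mem _ (hi h hh))
      refine closure_top_map _ SA hA ?_ _
      intro s hs
      apply Subgroup.subset_closure
      right
      simp only [Set.mem_iUnion]
      exact ⟨d, hd, s, hs, rfl⟩

/-- finitely generated stabilizers, first kind of points -/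
theorem Dat.stab_inl (D : Dat r1 r2 y0 j i Ψ) (SA : Set A) (hSA : SA.Finite)
    (hA : Subgroup.closure SA = ⊤)
    (H2 : ∃ F : Set X2, F.Finite ∧ ∀ z w : X2, ∃ z0 ∈ F, ∃ w0 ∈ F, ∃ g, r2 g z0 = z ∧ r2 g w0 = w)
    (x : X1) (hx : (stb r1 x).FG) (y : Orb r2 y0) (hy : (stb r2 y.1).FG) :
    (stb Ψ (Sum.inl (x, y))).FG := by
  obtain ⟨S, hS⟩ := hy
  obtain ⟨S1, hS1⟩ := hx
  obtain ⟨E, hE, hE2⟩ := orbD y0 H2 y.1
  let gens : Set P := (i '' (S : Set G) ∪ al j i y '' (S1 : Set A)) ∪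
    ⋃ d ∈ (E ∩ {d | d ≠ y}), al j i d '' SA
  refine fg_of gens ?_ ?_
  · exact ((S.finite_toSet.image _).union (S1.finite_toSet.image _)).union
      ((hE.subset Set.inter_subset_left).biUnion fun d _ => hSA.image _)
  · apply le_antisymm
    · rw [Subgroup.closure_le]
      rintro w ((⟨s, hs, rfl⟩ | ⟨s, hs, rfl⟩) | hw)
      · show Ψ (i s) (Sum.inl (x, y)) = Sum.inl (x, y)
        have hs2 : s ∈ stb r2 y.1 := by rw [← hS]; exact Subgroup.subset_closure hs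
        have hs3 : rO r2 y0 s y = y := Subtype.ext ((mem_stb r2 y.1 s).1 hs2)
        rw [D.top_inl, hs3]
      · show Ψ (al j i y s) (Sum.inl (x, y)) = Sum.inl (x, y)
        have hs2 : s ∈ stb r1 x := by rw [← hS1]; exact Subgroup.subset_closure hs
        rw [D.al_same, (mem_stb r1 x s).1 hs2]
      · simp only [Set.mem_iUnion] at hw
        obtain ⟨d, hd, a, ha, rfl⟩ := hw
        exact D.al_ne (fun h => hd.2 h.symm) a x
    · intro p hp
      obtain ⟨m, g, rfl, a, ha, hK⟩ := D.decomp p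
      have hp1 : Ψ (m * i g) (Sum.inl (x, y)) = Sum.inl (x, y) := hp
      rw [map_mul, Equiv.Perm.mul_apply, D.top_inl, ha, bA_inl] at hp1
      have hp2 := Sum.inl_injective hp1
      have hg1 : rO r2 y0 g y = y := congrArg Prod.snd hp2
      have hx1 : r1 (a (rO r2 y0 g y)) x = x := congrArg Prod.fst hp2
      rw [hg1] at hx1
      have hg : g ∈ stb r2 y.1 := congrArg Subtype.val hg1
      have hi : ∀ h ∈ stb r2 y.1, i h ∈ Subgroup.closure gens := fun h hh =>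
        closure_map i (S : Set G) (stb r2 y.1) hS
          (fun s hs => Subgroup.subset_closure (Or.inl (Or.inl ⟨s, hs, rfl⟩))) h hh
      refine Subgroup.mul_mem _ (hK _ ?_) (hi g hg)
      intro y'
      obtain ⟨h, hh, d, hd, hd2⟩ := hE2 y'
      by_cases hdy : d = y
      · have hy' : y' = y := by
          rw [← hd2, hdy]
          exact Subtype.ext hh
        subst hy'
        exact closure_map (al j i y') (S1 : Set A) (stb r1 x) hS1
          (fun s hs => Subgroup.subset_closure (Or.inl (Or.inr ⟨s, hs, rfl⟩))) _ hx1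
      · rw [← hd2, ← D.al_conj]
        refine Subgroup.mul_mem _ (Subgroup.mul_mem _ (hi h hh) ?_) (Subgroup.inv_mem _ (hi h hh))
        refine closure_top_map _ SA hA ?_ _
        intro s hs
        apply Subgroup.subset_closure
        right
        simp only [Set.mem_iUnion]
        exact ⟨d, ⟨hd, hdy⟩, s, hs, rfl⟩

/-- the action of the wreath product is of type (A) -/
theorem Dat.ta (D : Dat r1 r2 y0 j i Ψ) (h1 : TA r1) (h2 : TA r2) (hA : Group.FG A) : TA Ψ := by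
  obtain ⟨SA, hSA⟩ := hA.out
  refine ⟨D.inj h1.inj h2.inj, D.orb h1.orb h2.orb, ?_⟩
  rintro (⟨x, y⟩ | z)
  · exact D.stab_inl (SA : Set A) SA.finite_toSet hSA h2.orb x (h1.stab x) y (h2.stab y.1)
  · exact D.stab_inr (SA : Set A) SA.finite_toSet hSA h2.orb z (h2.stab z)

end Pool.Agent.X265.Wr
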