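import Pool.Agent.X265.Wr.Clo

/-!
# Overgroups of finite index
-/

set_option autoImplicit false

namespace Pool.Agent.X265.Wr

open Classical Pool.Agent.Results.MP_24fec0_al.TypeAOligomorphic

theorem ta_fin (X : Type) [Finite X] : TA (MonoidHom.id (Equiv.Perm X)) := by
  refine ⟨fun a b h => h, ⟨Set.univ, Set.finite_univ, fun z w =>
    ⟨z, trivial, w, trivial, 1, rfl, rfl⟩⟩, fun z => ?_⟩
  exact fg_of (stb (MonoidHom.id (Equiv.Perm X)) z : Set (Equiv.Perm X)) (Set.toFinite _)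
    (Subgroup.closure_eq _)

section ind

variable {K : Type} [Group K] (H : Subgroup K)

/-- the permutations of the cosets -/
def pc (k : K) : Equiv.Perm (K ⧸ H) := MulAction.toPermHom K (K ⧸ H) k

theorem pc_mul (k l : K) : pc H (k * l) = pc H k * pc H l := map_mul _ _ _

/-- the set of the cosets -/
abbrev Cos : Type := Orb (MonoidHom.id (Equiv.Perm (K ⧸ H))) (QuotientGroup.mk 1 : K ⧸ H)

/-- the action on the cosets -/
def mv (k : K) : Equiv.Perm (Cos H) :=
  rO (MonoidHom.id (Equiv.Perm (K ⧸ H))) (QuotientGroup.mk 1 : K ⧸ H) (pc H k)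

theorem mv_mul (k l : K) (c : Cos H) : mv H (k * l) c = mv H k (mv H l c) := by
  apply Subtype.ext
  show pc H (k * l) c.1 = pc H k (pc H l c.1)
  rw [pc_mul]
  rfl

/-- representatives -/
noncomputable def rep (c : Cos H) : K := Quotient.out c.1

theorem rep_mk (c : Cos H) : (QuotientGroup.mk (rep H c) : K ⧸ H) = c.1 := Quotient.out_eq _

theorem co_mem (k : K) (c : Cos H) : (rep H (mv H k c))⁻¹ * (k * rep H c) ∈ H := by
  rw [← QuotientGroup.eq, rep_mk]
  show k • c.1 = _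
  rw [← rep_mk H c]
  rfl

/-- the cocycle -/
noncomputable def co (k : K) (c : Cos H) : H := ⟨_, co_mem H k c⟩

theorem co_mul (k l : K) (c : Cos H) : co H (k * l) c = co H k (mv H l c) * co H l c := by
  apply Subtype.ext
  show (rep H (mv H (k * l) c))⁻¹ * (k * l * rep H c) =
    (rep H (mv H k (mv H l c)))⁻¹ * (k * rep H (mv H l c)) *
      ((rep H (mv H l c))⁻¹ * (l * rep H c))
  rw [mv_mul]
  group

variable {A X1 : Type} [Group A] (r1 : A →* Equiv.Perm X1) (φ1 : H →* A)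

/-- the induced action -/
noncomputable def indF (k : K) : Equiv.Perm
    (ZZ (MonoidHom.id (Equiv.Perm (K ⧸ H))) (QuotientGroup.mk 1 : K ⧸ H) X1) :=
  bA r1 (MonoidHom.id (Equiv.Perm (K ⧸ H))) (QuotientGroup.mk 1 : K ⧸ H)
    (fun c => φ1 (co H k ((mv H k).symm c))) *
    gA (MonoidHom.id (Equiv.Perm (K ⧸ H))) (QuotientGroup.mk 1 : K ⧸ H) X1 (pc H k)

theorem indF_inl (k : K) (x : X1) (c : Cos H) :
    indF H r1 φ1 k (Sum.inl (x, c)) = Sum.inl (r1 (φ1 (co H k c)) x, mv H k c) := by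
  show Sum.inl (r1 (φ1 (co H k ((mv H k).symm (mv H k c)))) x, mv H k c) = _
  rw [Equiv.symm_apply_apply]

theorem indF_inr (k : K) (z : K ⧸ H) :
    indF H r1 φ1 k (Sum.inr z) = Sum.inr (pc H k z) := rfl

/-- the induced action -/
noncomputable def ind : K →* Equiv.Perm
    (ZZ (MonoidHom.id (Equiv.Perm (K ⧸ H))) (QuotientGroup.mk 1 : K ⧸ H) X1) :=
  MonoidHom.mk' (indF H r1 φ1) (by
    intro k l
    apply Equiv.ext
    rintro (⟨x, c⟩ | z)
    · rw [Equiv.Perm.mul_apply, indF_inl, indF_inl, indF_inl, mv_mul, co_mul, map_mul, map_mul]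
      rfl
    · rw [Equiv.Perm.mul_apply, indF_inr, indF_inr, indF_inr, pc_mul]
      rfl)

theorem ind_inj (h1 : Function.Injective r1) (k1 : Function.Injective φ1) :
    Function.Injective (ind H r1 φ1) := by
  rw [injective_iff_map_eq_one]
  intro k hk
  let c : Cos H := bp _ _
  have hc : ∀ x : X1, (Sum.inl (r1 (φ1 (co H k c)) x, mv H k c) :
      ZZ (MonoidHom.id (Equiv.Perm (K ⧸ H))) (QuotientGroup.mk 1 : K ⧸ H) X1) =
      Sum.inl (x, c) := by
    intro x
    rw [← indF_inl]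
    exact congrArg (fun e : Equiv.Perm (ZZ (MonoidHom.id (Equiv.Perm (K ⧸ H)))
      (QuotientGroup.mk 1 : K ⧸ H) X1) => e (Sum.inl (x, c))) hk
  have hco : co H k c = 1 := by
    apply k1
    apply h1
    rw [map_one, map_one]
    apply Equiv.ext
    intro x
    exact congrArg Prod.fst (Sum.inl_injective (hc x))
  have hz : pc H k c.1 = c.1 := by
    have h := congrArg (fun e : Equiv.Perm (ZZ (MonoidHom.id (Equiv.Perm (K ⧸ H)))
      (QuotientGroup.mk 1 : K ⧸ H) X1) => e (Sum.inr c.1)) hk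
    exact Sum.inr_injective h
  have hmv : mv H k c = c := Subtype.ext hz
  have h2 : (rep H (mv H k c))⁻¹ * (k * rep H c) = 1 := congrArg Subtype.val hco
  rw [hmv, inv_mul_eq_one] at h2
  exact (mul_eq_right.1 h2.symm)

end ind

/-- **overgroups of finite index** -/
theorem embeds_ind {K : Type} [Group K] (H : Subgroup K) [H.FiniteIndex] (h : EmbedsTypeA H) :
    EmbedsTypeA K := by
  obtain ⟨A, _, X, r1, φ1, hA, hA', hX, h1, k1⟩ := of_embeds h
  haveI : Finite (K ⧸ H) := inferInstance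
  have h2 := ta_fin (K ⧸ H)
  obtain ⟨P, _, j, i, Ψ, hP, D⟩ := exists_dat r1 (MonoidHom.id (Equiv.Perm (K ⧸ H)))
    (QuotientGroup.mk 1 : K ⧸ H) hA' h2.orb (h2.stab _)
  haveI : Infinite (ZZ (MonoidHom.id (Equiv.Perm (K ⧸ H))) (QuotientGroup.mk 1 : K ⧸ H) X) := by
    refine Infinite.of_injective (fun x : X => (Sum.inl (x, bp _ _) :
      ZZ (MonoidHom.id (Equiv.Perm (K ⧸ H))) (QuotientGroup.mk 1 : K ⧸ H) X)) ?_
    intro a b h
    exact congrArg Prod.fst (Sum.inl_injective h)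
  refine embeds_of Ψ (D.ta h1 h2 hA') (ind H r1 φ1) (ind_inj H r1 φ1 h1.inj k1) ?_
  rintro _ ⟨k, rfl⟩
  exact Subgroup.mul_mem _ (D.base_range _ (Set.toFinite _)) (D.top_range _)

end Pool.Agent.X265.Wr
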