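import Pool.Agent.X265.Wr.Ind
import Pool.Agent.X265.Ver.Emb

/-!
# Groups `F / [R, R]`
-/

set_option autoImplicit false

namespace Pool.Agent.X265.Wr

open Classical Pool.Agent.Results.MP_24fec0_al.TypeAOligomorphic
open Pool.Agent.X265.Ver Pool.Agent.Y110.FJ

/-- lifting to the group which acts -/
theorem exists_lift {H P Z : Type} [Group H] [Group P] (r : P →* Equiv.Perm Z)
    (hr : Function.Injective r) (κ : H →* Equiv.Perm Z) (hrange : κ.range ≤ r.range) :
    ∃ φ : H →* P, ∀ h, r (φ h) = κ h := by
  let e : P ≃* r.range := MonoidHom.ofInjective hr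
  let κ' : H →* r.range := κ.codRestrict r.range (fun h => hrange ⟨h, rfl⟩)
  refine ⟨e.symm.toMonoidHom.comp κ', fun h => ?_⟩
  have h1 : e (e.symm (κ' h)) = κ' h := e.apply_symm_apply _
  exact congrArg Subtype.val h1

/-- finite base: overgroups of finite index -/
theorem base_ind {K : Type} [Group K] (H : Subgroup K) [H.FiniteIndex] (h : FiniteBase H) :
    FiniteBase K := by
  obtain ⟨A, _, X, r1, φ1, x0, hA, h1, k1, hx⟩ := one_point h
  haveI : Finite (K ⧸ H) := inferInstance
  have hA' : Group.FG A := by
    obtain ⟨n, ψ, hψ, -⟩ := hA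
    exact Group.fg_of_surjective hψ
  have h2 := ta_fin (K ⧸ H)
  obtain ⟨P, _, j, i, Ψ, hP, D⟩ := exists_dat r1 (MonoidHom.id (Equiv.Perm (K ⧸ H)))
    (QuotientGroup.mk 1 : K ⧸ H) hA' h2.orb (h2.stab _)
  have hran : (ind H r1 φ1).range ≤ Ψ.range := by
    rintro _ ⟨k, rfl⟩
    exact Subgroup.mul_mem _ (D.base_range _ (Set.toFinite _)) (D.top_range _)
  have ht := D.ta h1 h2 hA'
  obtain ⟨φ, hφ⟩ := exists_lift Ψ ht.inj (ind H r1 φ1) hran
  let c : Cos H := bp _ _
  refine ⟨P, inferInstance, _, Ψ, φ, {Sum.inl (x0, c)}, hP, ht, ?_, ?_⟩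
  · intro a b hab
    apply ind_inj H r1 φ1 h1.inj k1
    rw [← hφ, ← hφ, hab]
  · intro k hk
    have h3 := hk _ (Finset.mem_singleton_self _)
    rw [hφ] at h3
    have h4 : indF H r1 φ1 k (Sum.inl (x0, c)) = Sum.inl (x0, c) := h3
    rw [indF_inl] at h4
    have h5 := Sum.inl_injective h4
    have h6 : co H k c = 1 := hx _ (congrArg Prod.fst h5)
    have h7 : mv H k c = c := congrArg Prod.snd h5
    have h8 : (rep H (mv H k c))⁻¹ * (k * rep H c) = 1 := congrArg Subtype.val h6
    rw [h7, inv_mul_eq_one] at h8
    exact (mul_eq_right.1 h8.symm)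

/-- finite base: finite groups -/
theorem base_finite (H : Type) [Group H] [Finite H] : FiniteBase H := by
  refine ⟨H, inferInstance, H, lreg H, MonoidHom.id H, {1}, inferInstance, ?_, fun a b h => h, ?_⟩
  · refine ⟨?_, ⟨Set.univ, Set.finite_univ, fun z w => ⟨z, trivial, w, trivial, 1, ?_, ?_⟩⟩, ?_⟩
    · intro a b h
      have h1 := congrArg (fun e : Equiv.Perm H => e 1) h
      have h2 : a * 1 = b * 1 := h1
      rwa [mul_one, mul_one] at h2
    · rw [map_one]
      rfl
    · rw [map_one]
      rfl
    · intro z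
      exact fg_of (stb (lreg H) z : Set H) (Set.toFinite _) (Subgroup.closure_eq _)
  · intro h hh
    have h1 : h * 1 = 1 := hh 1 (Finset.mem_singleton_self _)
    rwa [mul_one] at h1

/-- finite base: subgroups -/
theorem base_mono {H K : Type} [Group H] [Group K] (f : H →* K) (hf : Function.Injective f)
    (h : FiniteBase K) : FiniteBase H := by
  obtain ⟨G, _, X, r, φ, F, hG, hr, hφ, hF⟩ := h
  refine ⟨G, inferInstance, X, r, φ.comp f, F, hG, hr, hφ.comp hf, fun h hh => hf ?_⟩
  rw [map_one]
  exact hF _ hh

/-- infinite groups with a finite base embed in infinite groups of type (A) -/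
theorem base_embeds {H : Type} [Group H] [Infinite H] (h : FiniteBase H) : EmbedsTypeA H := by
  obtain ⟨G, _, X, r, φ, F, hG, hr, hφ, hF⟩ := h
  haveI : Infinite X := by
    by_contra hX
    rw [not_infinite_iff_finite] at hX
    have : Finite H := Finite.of_injective (fun h => r (φ h)) (hr.inj.comp hφ)
    exact not_finite H
  refine embeds_of r hr (r.comp φ) (hr.inj.comp hφ) ?_
  rintro _ ⟨h, rfl⟩
  exact ⟨φ h, rfl⟩

section magnus

variable {X I : Type} {A : I → Type} [∀ i, Group (A i)] (R : Subgroup (FrP X A)) [R.Normal]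

/-- coefficients -/
noncomputable def cf {V : Type} (v : V) : FreeGroup V →* Multiplicative ℤ :=
  FreeGroup.lift fun w => Multiplicative.ofAdd (if w = v then (1 : ℤ) else 0)

theorem cf_comm {V : Type} (x : FreeGroup V) (h : ∀ v, cf v x = 1) :
    x ∈ commutator (FreeGroup V) := by
  let f : FreeAbelianGroup V →+ (V →₀ ℤ) := FreeAbelianGroup.toFinsupp
  let g : FreeGroup V →* Multiplicative (V →₀ ℤ) :=
    (AddMonoidHom.toMultiplicative f).comp
      (Abelianization.of : FreeGroup V →* Abelianization (FreeGroup V))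
  have hg : ∀ y v, (Multiplicative.toAdd (g y)) v = Multiplicative.toAdd (cf v y) := by
    intro y v
    have : (AddMonoidHom.toMultiplicative (Finsupp.applyAddHom (M := ℤ) v)).comp g = cf v := by
      apply FreeGroup.ext_hom
      intro w
      show Multiplicative.ofAdd ((f (FreeAbelianGroup.of w)) v) = cf v (FreeGroup.of w)
      rw [cf, FreeGroup.lift_apply_of, FreeAbelianGroup.toFinsupp_of, Finsupp.single_apply]
    rw [← this]
    rfl
  have h1 : g x = 1 := by
    apply Multiplicative.toAdd.injective
    apply Finsupp.ext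
    intro v
    rw [hg, h v]
    rfl
  have h2 : f (Abelianization.of x : Abelianization (FreeGroup V)) = 0 := h1
  have hf : Function.Injective f := (FreeAbelianGroup.equivFinsupp V).injective
  have h3 : (Abelianization.of x : Abelianization (FreeGroup V)) = 1 :=
    hf (h2.trans (map_zero f).symm)
  exact (QuotientGroup.eq_one_iff x).1 h3

/-- the map from the free group on the edges to the base group of the wreath product -/
noncomputable def edgeMap : FE R →* fs (X ⊕ I → Multiplicative ℤ) (FrP X A ⧸ R) :=
  FreeGroup.lift fun v => ⟨Pi.mulSingle v.q (Pi.mulSingle v.z (Multiplicative.ofAdd 1)), by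
    refine (Set.finite_singleton v.q).subset ?_
    intro y hy
    by_contra h
    exact hy (Pi.mulSingle_eq_of_ne h _)⟩

theorem edgeMap_apply (x : FE R) (z : X ⊕ I) (q : FrP X A ⧸ R) :
    (edgeMap R x).1 q z = cf ⟨z, q⟩ x := by
  let h : FE R →* Multiplicative ℤ :=
    { toFun := fun x => (edgeMap R x).1 q z
      map_one' := by rw [map_one]; rfl
      map_mul' := fun x y => by rw [map_mul]; rfl }
  have : h = cf ⟨z, q⟩ := by
    apply FreeGroup.ext_hom
    rintro ⟨z', q'⟩
    show (edgeMap R (ed R z' q')).1 q z = cf ⟨z, q⟩ (ed R z' q')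
    rw [edgeMap, FreeGroup.lift_apply_of, cf, FreeGroup.lift_apply_of]
    show (Pi.mulSingle (M := fun _ => X ⊕ I → Multiplicative ℤ) q'
      (Pi.mulSingle z' (Multiplicative.ofAdd 1))) q z = _
    by_cases hq : q = q'
    · subst hq
      rw [Pi.mulSingle_eq_same]
      by_cases hz : z = z'
      · subst hz
        rw [Pi.mulSingle_eq_same, if_pos rfl]
      · rw [Pi.mulSingle_eq_of_ne hz, if_neg]
        · rfl
        · intro h
          exact hz (congrArg Vt.z h).symm
    · rw [Pi.mulSingle_eq_of_ne hq, if_neg]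
      · rfl
      · intro h
        exact hq (congrArg Vt.q h).symm
  exact congrArg (fun f : FE R →* Multiplicative ℤ => f x) this

/-- the Magnus embedding -/
noncomputable def mag : FrP X A →* RW (X ⊕ I → Multiplicative ℤ) (FrP X A ⧸ R) :=
  (SemidirectProduct.map (edgeMap R) (MonoidHom.id _) (by
    intro q
    apply FreeGroup.ext_hom
    rintro ⟨z', q'⟩
    apply Subtype.ext
    funext p
    show (edgeMap R (pe R q (ed R z' q'))).1 p = (edgeMap R (ed R z' q')).1 (q⁻¹ * p)
    funext z
    rw [pe_ed, edgeMap_apply, edgeMap_apply, cf, cf, FreeGroup.lift_apply_of,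
      FreeGroup.lift_apply_of]
    congr 2
    apply propext
    constructor
    · intro h
      have h1 : q * q' = p := congrArg Vt.q h
      have h2 : z' = z := congrArg Vt.z h
      rw [h2, ← h1, inv_mul_cancel_left]
    · intro h
      have h1 : q' = q⁻¹ * p := congrArg Vt.q h
      have h2 : z' = z := congrArg Vt.z h
      rw [h2, h1, mul_inv_cancel_left])).comp (emb R)

theorem mag_left (g : FrP X A) : (mag R g).left = edgeMap R (emb R g).left := rfl

theorem mag_right (g : FrP X A) : (mag R g).right = cl R g := emb_right R g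

theorem mag_ker (hA : ∀ i (a : A i), ia i a ∈ R → a = 1) : (mag R).ker = ⁅R, R⁆ := by
  apply le_antisymm
  · intro g hg
    have hg1 : mag R g = 1 := hg
    have hr : cl R g = 1 := by
      rw [← mag_right, hg1]
      rfl
    have hgR : g ∈ R := (QuotientGroup.eq_one_iff g).1 hr
    have hl : (emb R g).left ∈ commutator (FE R) := by
      apply cf_comm
      rintro ⟨z, q⟩
      rw [← edgeMap_apply, ← mag_left, hg1]
      rfl
    have h1 := key R hA g 1
    rw [map_one, hr, one_mul] at h1
    have h1' : (rho R (emb R g).left : FrP X A) = sq R 1 * g * (sq R 1)⁻¹ := h1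
    have h2 : (rho R (emb R g).left) ∈ commutator R := by
      have h3 : (commutator (FE R)).map (rho R) ≤ commutator R := by
        rw [commutator_def, Subgroup.map_commutator, commutator_def]
        exact Subgroup.commutator_mono le_top le_top
      exact h3 ⟨_, hl, rfl⟩
    have h4 : (rho R (emb R g).left : FrP X A) ∈ ⁅R, R⁆ := by
      have h5 : (commutator R).map R.subtype ≤ ⁅R, R⁆ := by
        rw [commutator_def, Subgroup.map_commutator]
        apply Subgroup.commutator_mono
        · rintro _ ⟨x, -, rfl⟩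
          exact x.2
        · rintro _ ⟨x, -, rfl⟩
          exact x.2
      exact h5 ⟨_, h2, rfl⟩
    rw [h1'] at h4
    have h6 := (inferInstance : (⁅R, R⁆ : Subgroup (FrP X A)).Normal).conj_mem _ h4 (sq R 1)⁻¹
    have h7 : (sq R 1)⁻¹ * (sq R 1 * g * (sq R 1)⁻¹) * ((sq R 1)⁻¹)⁻¹ = g := by group
    rwa [h7] at h6
  · rw [Subgroup.commutator_le]
    intro x hx y hy
    have hxr : (mag R x).right = 1 := by
      rw [mag_right]
      exact (QuotientGroup.eq_one_iff x).2 hx
    have hyr : (mag R y).right = 1 := by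
      rw [mag_right]
      exact (QuotientGroup.eq_one_iff y).2 hy
    have hform : ∀ u : RW (X ⊕ I → Multiplicative ℤ) (FrP X A ⧸ R), u.right = 1 →
        u = SemidirectProduct.inl u.left := by
      intro u hu
      apply SemidirectProduct.ext
      · rfl
      · exact hu
    show mag R (x * y * x⁻¹ * y⁻¹) = 1
    rw [map_mul, map_mul, map_mul, map_inv, map_inv, hform _ hxr, hform _ hyr, ← map_mul,
      ← map_inv, ← map_mul, ← map_inv, ← map_mul]
    have hc : (mag R x).left * (mag R y).left = (mag R y).left * (mag R x).left := by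
      apply Subtype.ext
      funext q
      exact mul_comm _ _
    rw [hc]
    have : (mag R y).left * (mag R x).left * (mag R x).left⁻¹ * (mag R y).left⁻¹ = 1 := by group
    rw [this, map_one]

end magnus

theorem embeds_pi {Z : Type} [Finite Z] (h : EmbedsTypeA (Multiplicative ℤ)) :
    EmbedsTypeA (Z → Multiplicative ℤ) := by
  have key : ∀ n : ℕ, EmbedsTypeA (Fin n → Multiplicative ℤ) := by
    intro n
    induction n with
    | zero =>
      refine embeds_mono (1 : (Fin 0 → Multiplicative ℤ) →* Multiplicative ℤ) ?_ h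
      intro a b _
      exact Subsingleton.elim a b
    | succ n ih =>
      refine embeds_mono
        { toFun := fun f : Fin (n + 1) → Multiplicative ℤ => (f 0, fun i : Fin n => f i.succ)
          map_one' := rfl
          map_mul' := fun _ _ => rfl } ?_ (embeds_prod h ih)
      intro a b hab
      funext i
      refine Fin.cases ?_ (fun i => ?_) i
      · exact congrArg Prod.fst hab
      · exact congrFun (congrArg Prod.snd hab) i
  obtain ⟨n, ⟨e⟩⟩ := Finite.exists_equiv_fin Z
  refine embeds_mono
    { toFun := fun f : Z → Multiplicative ℤ => fun i : Fin n => f (e.symm i)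
      map_one' := rfl
      map_mul' := fun _ _ => rfl } ?_ (key n)
  intro a b hab
  funext z
  have := congrFun hab (e z)
  have h2 : a (e.symm (e z)) = b (e.symm (e z)) := this
  rwa [e.symm_apply_apply] at h2

/-- **quotients by the commutator subgroup of a normal subgroup** -/
theorem embeds_magnus {X I : Type} [Finite X] [Finite I] {A : I → Type} [∀ i, Group (A i)]
    (R : Subgroup (FrP X A)) [R.Normal] (hA : ∀ i (a : A i), ia i a ∈ R → a = 1)
    (hQ : FiniteBase (FrP X A ⧸ R)) (q : FrP X A ⧸ R) (hq : ∀ n : ℕ, 0 < n → q ^ n ≠ 1) :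
    EmbedsTypeA (FrP X A ⧸ (⁅R, R⁆ : Subgroup (FrP X A))) := by
  have hinj : Function.Injective (zpowersHom (FrP X A ⧸ R) q) := by
    rw [injective_iff_map_eq_one]
    intro m hm
    have hm' : q ^ (Multiplicative.toAdd m) = 1 := hm
    by_contra hne
    have hne' : Multiplicative.toAdd m ≠ 0 := hne
    apply hq (Multiplicative.toAdd m).natAbs (Int.natAbs_pos.2 hne')
    rcases Int.natAbs_eq (Multiplicative.toAdd m) with h | h
    · rw [h, zpow_natCast] at hm'
      exact hm'
    · rw [h, zpow_neg, zpow_natCast, inv_eq_one] at hm'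
      exact hm'
  haveI : Infinite (FrP X A ⧸ R) := Infinite.of_injective _ hinj
  have hZ : EmbedsTypeA (Multiplicative ℤ) := embeds_mono _ hinj (base_embeds hQ)
  have hW := embeds_RW (embeds_pi (Z := X ⊕ I) hZ) hQ
  refine embeds_mono (QuotientGroup.lift (⁅R, R⁆ : Subgroup (FrP X A)) (mag R) ?_) ?_ hW
  · intro g hg
    rw [← mag_ker R hA] at hg
    exact hg
  · rw [injective_iff_map_eq_one]
    intro u hu
    obtain ⟨g, rfl⟩ := QuotientGroup.mk_surjective u
    apply (QuotientGroup.eq_one_iff g).2
    rw [← mag_ker R hA]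
    exact hu

end Pool.Agent.X265.Wr
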