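import Pool.Agent.X265.Wr.Fin

/-!
# The finite presentation of a permutational wreath product
-/

set_option autoImplicit false

namespace Pool.Agent.X265.Wr

open Classical Monoid Monoid.Coprod

variable {A G X1 X2 : Type} [Group A] [Group G]

theorem comm_ext {P : Type} [Group P] (f : A →* P) (g : G →* P) (S : Set A)
    (hS : Subgroup.closure S = ⊤) (T : Set G) (L : Subgroup G) (hT : Subgroup.closure T = L)
    (h : ∀ s ∈ S, ∀ t ∈ T, Commute (f s) (g t)) (a : A) (b : G) (hb : b ∈ L) :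
    Commute (f a) (g b) := by
  have h1 : ∀ t ∈ T, ∀ a, Commute (f a) (g t) := by
    intro t ht a
    have : f a ∈ Subgroup.centralizer {g t} := by
      refine closure_top_map f S hS ?_ a
      intro s hs
      rw [Subgroup.mem_centralizer_singleton_iff]
      exact (h s hs t ht)
    rw [Subgroup.mem_centralizer_singleton_iff] at this
    exact this
  have h2 : g b ∈ Subgroup.centralizer {f a} := by
    refine closure_map g T L hT ?_ b hb
    intro t ht
    rw [Subgroup.mem_centralizer_singleton_iff]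
    exact (h1 t ht a).symm
  rw [Subgroup.mem_centralizer_singleton_iff] at h2
  exact (show Commute (g b) (f a) from h2).symm

/-- existence of the data with a finitely presented group -/
theorem exists_dat [Group.IsFinitelyPresented A] [Group.IsFinitelyPresented G]
    (r1 : A →* Equiv.Perm X1) (r2 : G →* Equiv.Perm X2) (y0 : X2) (hA : Group.FG A)
    (H2 : ∃ F : Set X2, F.Finite ∧ ∀ z w : X2, ∃ z0 ∈ F, ∃ w0 ∈ F, ∃ g, r2 g z0 = z ∧ r2 g w0 = w)
    (hst : (stb r2 y0).FG) :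
    ∃ (P : Type) (_ : Group P) (j : A →* P) (i : G →* P) (Ψ : P →* Equiv.Perm (ZZ r2 y0 X1)),
      Group.IsFinitelyPresented P ∧ Dat r1 r2 y0 j i Ψ := by
  obtain ⟨SA, hSA⟩ := hA.out
  obtain ⟨SH, hSH⟩ := hst
  obtain ⟨E, hE, hE2⟩ := orbD y0 H2 y0
  let R1 : Set (Coprod A G) := (fun p : A × G => (inl p.1 : Coprod A G) * inr p.2 *
    (inl p.1)⁻¹ * (inr p.2)⁻¹) '' ((SA : Set A) ×ˢ (SH : Set G))
  let R2 : Set (Coprod A G) := (fun q : (A × A) × Orb r2 y0 => (inl q.1.1 : Coprod A G) *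
    (inr (sec r2 y0 q.2) * inl q.1.2 * (inr (sec r2 y0 q.2))⁻¹) * (inl q.1.1)⁻¹ *
    (inr (sec r2 y0 q.2) * inl q.1.2 * (inr (sec r2 y0 q.2))⁻¹)⁻¹) ''
      (((SA : Set A) ×ˢ (SA : Set A)) ×ˢ (E ∩ {d | d ≠ bp r2 y0}))
  have hR : (R1 ∪ R2).Finite := by
    refine ((SA.finite_toSet.prod SH.finite_toSet).image _).union
      (((SA.finite_toSet.prod SA.finite_toSet).prod (hE.subset Set.inter_subset_left)).image _)
  set N := Subgroup.normalClosure (R1 ∪ R2) with hN
  have hfp : Group.IsFinitelyPresented (Coprod A G ⧸ N) :=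
    Group.IsFinitelyPresented.quotient N ⟨R1 ∪ R2, hR, rfl⟩
  let j : A →* Coprod A G ⧸ N := (QuotientGroup.mk' N).comp inl
  let i : G →* Coprod A G ⧸ N := (QuotientGroup.mk' N).comp inr
  let ψ : Coprod A G →* Equiv.Perm (ZZ r2 y0 X1) :=
    Coprod.lift ((bA r1 r2 y0).comp (MonoidHom.mulSingle (fun _ => A) (bp r2 y0))) (gA r2 y0 X1)
  have hψl : ∀ a, ψ (inl a) = bA r1 r2 y0 (Pi.mulSingle (bp r2 y0) a) := fun a => by
    show ψ (inl a) = _
    simp only [ψ, Coprod.lift_apply_inl]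
    rfl
  have hψr : ∀ g, ψ (inr g) = gA r2 y0 X1 g := fun g => by
    simp only [ψ, Coprod.lift_apply_inr]
  have hker : N ≤ ψ.ker := by
    rw [hN]
    apply Subgroup.normalClosure_le_normal
    rintro _ (⟨⟨a, h⟩, ⟨ha, hh⟩, rfl⟩ | ⟨⟨⟨a, a'⟩, d⟩, ⟨⟨ha, ha'⟩, hd⟩, rfl⟩)
    · show ψ (inl a * inr h * (inl a)⁻¹ * (inr h)⁻¹) = 1
      have hh1 : h ∈ stb r2 y0 := by rw [← hSH]; exact Subgroup.subset_closure hh
      have hh2 : rO r2 y0 h (bp r2 y0) = bp r2 y0 := Subtype.ext hh1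
      rw [map_mul, map_mul, map_mul, map_inv, map_inv, hψl, hψr]
      have := gb_single r1 r2 y0 h (bp r2 y0) a
      rw [hh2] at this
      generalize bA r1 r2 y0 (Pi.mulSingle (bp r2 y0) a) = u at this ⊢
      generalize gA r2 y0 X1 h = v at this ⊢
      have h3 : v * u = u * v := mul_inv_eq_iff_eq_mul.1 this
      rw [← h3]
      group
    · show ψ (inl a * (inr (sec r2 y0 d) * inl a' * (inr (sec r2 y0 d))⁻¹) * (inl a)⁻¹ *
        (inr (sec r2 y0 d) * inl a' * (inr (sec r2 y0 d))⁻¹)⁻¹) = 1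
      have hd2 : rO r2 y0 (sec r2 y0 d) (bp r2 y0) = d := Subtype.ext (sec_spec r2 y0 d)
      have e : ψ (inr (sec r2 y0 d) * inl a' * (inr (sec r2 y0 d))⁻¹) =
          bA r1 r2 y0 (Pi.mulSingle d a') := by
        rw [map_mul, map_mul, map_inv, hψl, hψr, gb_single, hd2]
      rw [map_mul, map_mul, map_mul, map_inv, map_inv, e, hψl, ← map_mul, ← map_inv, ← map_mul,
        ← map_inv, ← map_mul]
      have hcomm : Pi.mulSingle (bp r2 y0) a * Pi.mulSingle d a' =
          (Pi.mulSingle d a' * Pi.mulSingle (bp r2 y0) a : Orb r2 y0 → A) :=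
        (Pi.mulSingle_commute (f := fun _ : Orb r2 y0 => A) (fun h => hd.2 h.symm) a a').eq
      rw [hcomm]
      have : (Pi.mulSingle d a' * Pi.mulSingle (bp r2 y0) a * (Pi.mulSingle (bp r2 y0) a)⁻¹ *
        (Pi.mulSingle d a')⁻¹ : Orb r2 y0 → A) = 1 := by group
      rw [this, map_one]
  let Ψ : Coprod A G ⧸ N →* Equiv.Perm (ZZ r2 y0 X1) := QuotientGroup.lift N ψ hker
  have hmem : ∀ w ∈ R1 ∪ R2, (QuotientGroup.mk' N) w = 1 := fun w hw =>
    (QuotientGroup.eq_one_iff w).2 (Subgroup.subset_normalClosure hw)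
  have c1 : ∀ a : A, ∀ h : G, r2 h y0 = y0 → Commute (j a) (i h) := by
    intro a h hh
    refine comm_ext j i (SA : Set A) hSA (SH : Set G) (stb r2 y0) hSH ?_ a h hh
    intro s hs t ht
    have h1 := hmem _ (Or.inl ⟨(s, t), ⟨hs, ht⟩, rfl⟩)
    have h2 : j s * i t * (j s)⁻¹ * (i t)⁻¹ = 1 := h1
    rw [mul_inv_eq_one, mul_inv_eq_iff_eq_mul] at h2
    exact h2
  have c2b : ∀ a a' : A, ∀ d ∈ E, d ≠ bp r2 y0 →
      Commute (j a) (i (sec r2 y0 d) * j a' * (i (sec r2 y0 d))⁻¹) := by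
    intro a a' d hd hd2
    have := comm_ext j ((MulAut.conj (i (sec r2 y0 d))).toMonoidHom.comp j) (SA : Set A) hSA
      (SA : Set A) ⊤ hSA (fun s hs t ht => by
        have h1 := hmem _ (Or.inr ⟨((s, t), d), ⟨⟨hs, ht⟩, hd, hd2⟩, rfl⟩)
        have h2 : j s * (i (sec r2 y0 d) * j t * (i (sec r2 y0 d))⁻¹) * (j s)⁻¹ *
          (i (sec r2 y0 d) * j t * (i (sec r2 y0 d))⁻¹)⁻¹ = 1 := h1
        rw [mul_inv_eq_one, mul_inv_eq_iff_eq_mul] at h2
        exact h2) a a' (Subgroup.mem_top _)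
    exact this
  have hD : Dat r1 r2 y0 j i Ψ := by
    refine ⟨?_, c1, ?_, ?_, ?_⟩
    · have h1 : j.range = (inl : A →* Coprod A G).range.map (QuotientGroup.mk' N) :=
        MonoidHom.range_comp _ _
      have h2 : i.range = (inr : G →* Coprod A G).range.map (QuotientGroup.mk' N) :=
        MonoidHom.range_comp _ _
      rw [h1, h2, ← Subgroup.map_sup, Coprod.range_inl_sup_range_inr,
        Subgroup.map_top_of_surjective _ (QuotientGroup.mk'_surjective N)]
    · intro a a' g hg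
      let y : Orb r2 y0 := ⟨r2 g y0, g, rfl⟩
      obtain ⟨h, hh, d, hd, hdy⟩ := hE2 y
      have hd2 : d ≠ bp r2 y0 := by
        rintro rfl
        apply hg
        have h1 := congrArg Subtype.val hdy
        have h2 : r2 h y0 = r2 g y0 := h1
        rw [← h2, hh]
      let k : G := (h * sec r2 y0 d)⁻¹ * g
      have hk : r2 k y0 = y0 := by
        have h1 : r2 (h * sec r2 y0 d) y0 = r2 g y0 := by
          rw [map_mul, Equiv.Perm.mul_apply, sec_spec]
          exact congrArg Subtype.val hdy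
        show r2 ((h * sec r2 y0 d)⁻¹ * g) y0 = y0
        rw [map_mul, Equiv.Perm.mul_apply, ← h1, map_inv]
        exact (r2 (h * sec r2 y0 d)).symm_apply_apply y0
      have hgk : g = h * sec r2 y0 d * k := by
        show g = h * sec r2 y0 d * ((h * sec r2 y0 d)⁻¹ * g)
        group
      have e1 : i k * j a' * (i k)⁻¹ = j a' := by
        rw [← (c1 a' k hk).eq, mul_inv_cancel_right]
      have e2 : i h * j a * (i h)⁻¹ = j a := by
        rw [← (c1 a h hh).eq, mul_inv_cancel_right]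
      have e3 : i g * j a' * (i g)⁻¹ =
          i h * (i (sec r2 y0 d) * j a' * (i (sec r2 y0 d))⁻¹) * (i h)⁻¹ := by
        rw [hgk, map_mul, map_mul]
        calc i h * i (sec r2 y0 d) * i k * j a' * (i h * i (sec r2 y0 d) * i k)⁻¹
            = i h * (i (sec r2 y0 d) * (i k * j a' * (i k)⁻¹) * (i (sec r2 y0 d))⁻¹) *
              (i h)⁻¹ := by group
          _ = _ := by rw [e1]
      rw [e3, ← e2]
      have := (c2b a a' d hd hd2).map (MulAut.conj (i h)).toMonoidHom
      exact this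
    · intro a
      exact hψl a
    · intro g
      exact hψr g
  exact ⟨Coprod A G ⧸ N, inferInstance, j, i, Ψ, hfp, hD⟩

end Pool.Agent.X265.Wr
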